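import Pool.Agent.TH208.LamMain

set_option autoImplicit false

namespace Pool.Agent.TH208.Lam

open Polynomial

section

variable {k : Type} [Field k]

/-- the lift of `zeta (x T)` to `k[X,Y][T]` -/
noncomputable def zh (k : Type) [Field k] (t : k) : Fin 4 → k[X][X][X] :=
  ![1 + C (C (C (1 + t⁻¹))) * (C X ^ 2 * X ^ 4),
    C (C (C (1 + t))) * (C X * X ^ 2 + C (C X) * X ^ 3),
    C (C (C (1 + t⁻¹))) * ((C X * X ^ 2 + C (C X) * X ^ 3) * (1 + C X * X ^ 2)),
    1 + C (C (C (1 + t))) * (C X ^ 2 * X ^ 4)]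

/-- evaluation at `T = 0` -/
theorem zh_zero (t : k) : (zh k t 0).eval 0 = 1 ∧ (zh k t 1).eval 0 = 0 ∧
    (zh k t 2).eval 0 = 0 ∧ (zh k t 3).eval 0 = 1 := by
  simp [zh]

theorem zh_one (t : k) (i : Fin 4) : piHom k ((zh k t i).eval 1) = ze k t i := by
  have e1 : ∀ c : k, piHom k (C (C c)) = C c := fun c => piHom_CC c
  have e2 := piHom_X (k := k)
  have e3 := piHom_CX (k := k)
  fin_cases i
  · change piHom k (eval 1 (1 + C (C (C (1 + t⁻¹))) * (C X ^ 2 * X ^ 4))) =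
      1 + C (1 + t⁻¹) * X ^ 4
    rw [eval_add, eval_one, eval_mul, eval_C, eval_mul, eval_pow, eval_pow, eval_X, eval_C,
      map_add, map_one, map_mul, e1, map_mul, map_pow, e2, one_pow, map_one]
    ring
  · change piHom k (eval 1 (C (C (C (1 + t))) * (C X * X ^ 2 + C (C X) * X ^ 3))) =
      C (1 + t) * (X ^ 2 + X ^ 3)
    rw [eval_mul, eval_C, eval_add, eval_mul, eval_mul, eval_pow, eval_pow, eval_X, eval_C, eval_C,
      one_pow, one_pow, mul_one, mul_one, map_mul, e1, map_add (piHom k) X, e2, e3]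
  · change piHom k (eval 1 (C (C (C (1 + t⁻¹))) *
      ((C X * X ^ 2 + C (C X) * X ^ 3) * (1 + C X * X ^ 2)))) =
      C (1 + t⁻¹) * ((X ^ 2 + X ^ 3) * (1 + X ^ 2))
    rw [eval_mul, eval_C, eval_mul, eval_add, eval_mul, eval_mul, eval_pow, eval_pow, eval_X,
      eval_C, eval_C, eval_add, eval_one, eval_mul, eval_C, eval_pow, eval_X,
      one_pow, one_pow, mul_one, mul_one, map_mul, e1, map_mul, map_add (piHom k) X,
      map_add (piHom k) 1, map_one, e2, e3]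
  · change piHom k (eval 1 (1 + C (C (C (1 + t))) * (C X ^ 2 * X ^ 4))) =
      1 + C (1 + t) * X ^ 4
    rw [eval_add, eval_one, eval_mul, eval_C, eval_mul, eval_pow, eval_pow, eval_X, eval_C,
      map_add, map_one, map_mul, e1, map_mul, map_pow, e2, one_pow, map_one]
    ring

theorem map_zh_det [CharP k 2] (t : k) (ht : t ≠ 0) :
    (zh k t 0).map (piHom k) * (zh k t 3).map (piHom k) +
      (zh k t 1).map (piHom k) * (zh k t 2).map (piHom k) - 1 = 0 := by
  have two : (2 : k[X][X]) = 0 := CharTwo.two_eq_zero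
  have R1 : (C (C (1 + t)) : k[X][X]) * C (C (1 + t⁻¹)) - C (C (1 + t)) - C (C (1 + t⁻¹)) = 0 := by
    rw [← C_mul, ← C_sub, ← C_sub, ← C_mul, ← C_sub, ← C_sub]
    have : (1 + t) * (1 + t⁻¹) - (1 + t) - (1 + t⁻¹) = 0 := by field_simp; ring
    rw [this, C_0, C_0]
  simp only [zh, Matrix.cons_val_zero, Matrix.cons_val_one, Matrix.cons_val, Polynomial.map_add,
    Polynomial.map_mul, Polynomial.map_pow, Polynomial.map_one, map_C, map_X, piHom_X, piHom_CX,
    piHom_CC]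
  simp only [C_pow]
  generalize (C (C (1 + t)) : k[X][X]) = p at *
  generalize (C (C (1 + t⁻¹)) : k[X][X]) = q at *
  generalize (C X : k[X][X]) = x at *
  linear_combination (x ^ 4 * X ^ 4 : k[X][X]) * R1 * (-1) + (p * q *
    (x ^ 4 * X ^ 4 + x ^ 5 * X ^ 5 + x ^ 6 * X ^ 6 + x ^ 7 * X ^ 7 + x ^ 8 * X ^ 8)) * two

/-- the big matrix over `k[X,Y][T]` -/
noncomputable def MT (s t : k) : Matrix (Fin 3) (Fin 3) (k[X][X][X]) :=
  Mm (C (C (C s))) (C (C (C s⁻¹))) (zh k t 0) (zh k t 1) (zh k t 2) (zh k t 3)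

/-- its inverse -/
noncomputable def MiT (s t : k) : Matrix (Fin 3) (Fin 3) (k[X][X][X]) :=
  Mi (C (C (C s))) (C (C (C s⁻¹))) (zh k t 0) (zh k t 1) (zh k t 2) (zh k t 3)

theorem CCC_mul (s : k) (hs : s ≠ 0) : (C (C (C s)) : k[X][X][X]) * C (C (C s⁻¹)) = 1 := by
  rw [← C_mul, ← C_mul, ← C_mul, mul_inv_cancel₀ hs, C_1, C_1, C_1]

theorem CC_mul (s : k) (hs : s ≠ 0) : (C (C s) : k[X][X]) * C (C s⁻¹) - 1 = 0 := by
  rw [← C_mul, ← C_mul, mul_inv_cancel₀ hs, C_1, C_1, sub_self]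

theorem C_mul' (s : k) (hs : s ≠ 0) : (C s : k[X]) * C s⁻¹ - 1 = 0 := by
  rw [← C_mul, mul_inv_cancel₀ hs, C_1, sub_self]

theorem MT_mul_MiT [CharP k 2] (s t : k) (hs : s ≠ 0) : MT s t * MiT s t = 1 := by
  have twoXXX : (2 : k[X][X][X]) = 0 := CharTwo.two_eq_zero
  exact Mm_mul_Mi twoXXX _ _ _ _ _ _ (CCC_mul s hs)

theorem piT_CCC (c : k) : (C (C (C c)) : k[X][X][X]).map (piHom k) = C (C c) := by
  rw [map_C, piHom_CC]

theorem map_MT (s t : k) (i j : Fin 3) : (MT s t i j).map (piHom k) =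
    Mm (C (C s)) (C (C s⁻¹)) ((zh k t 0).map (piHom k)) ((zh k t 1).map (piHom k))
      ((zh k t 2).map (piHom k)) ((zh k t 3).map (piHom k)) i j := by
  have h := Mm_map (mapRingHom (piHom k)) (C (C (C s))) (C (C (C s⁻¹))) (zh k t 0) (zh k t 1)
    (zh k t 2) (zh k t 3) i j
  rw [coe_mapRingHom, piT_CCC, piT_CCC] at h
  exact h

theorem map_MiT (s t : k) (i j : Fin 3) : (MiT s t i j).map (piHom k) =
    Mi (C (C s)) (C (C s⁻¹)) ((zh k t 0).map (piHom k)) ((zh k t 1).map (piHom k))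
      ((zh k t 2).map (piHom k)) ((zh k t 3).map (piHom k)) i j := by
  have h := Mi_map (mapRingHom (piHom k)) (C (C (C s))) (C (C (C s⁻¹))) (zh k t 0) (zh k t 1)
    (zh k t 2) (zh k t 3) i j
  rw [coe_mapRingHom, piT_CCC, piT_CCC] at h
  exact h

theorem map_MT_row [CharP k 2] (s t : k) (hs : s ≠ 0) (ht : t ≠ 0) (i : Fin 3) :
    (MT s t 2 i).map (piHom k) = 0 ∨ (MT s t 2 i).map (piHom k) = 1 := by
  have twoXX : (2 : k[X][X]) = 0 := CharTwo.two_eq_zero
  rw [map_MT]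
  fin_cases i
  · exact Or.inl (Mm_20 twoXX _ _ _ _ _ _ (CC_mul s hs) (map_zh_det t ht))
  · exact Or.inl (Mm_21 twoXX _ _ _ _ _ _ (CC_mul s hs) (map_zh_det t ht))
  · exact Or.inr (Mm_22 twoXX _ _ _ _ _ _ (CC_mul s hs) (map_zh_det t ht))

theorem map_MiT_col [CharP k 2] (s t : k) (hs : s ≠ 0) (ht : t ≠ 0) (i : Fin 3) :
    (MiT s t i 2).map (piHom k) = 0 ∨ (MiT s t i 2).map (piHom k) = 1 := by
  have twoXX : (2 : k[X][X]) = 0 := CharTwo.two_eq_zero
  rw [map_MiT]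
  fin_cases i
  · exact Or.inl (Mi_02 twoXX _ _ _ _ _ _ (CC_mul s hs) (map_zh_det t ht))
  · exact Or.inl (Mi_12 twoXX _ _ _ _ _ _ (CC_mul s hs) (map_zh_det t ht))
  · exact Or.inr (Mi_22 twoXX _ _ _ _ _ _ (CC_mul s hs) (map_zh_det t ht))

theorem eval_zero_MT [CharP k 2] (s t : k) (hs : s ≠ 0) (i : Fin 3) :
    (MT s t 2 i).eval 0 = (Pi.single 2 1 : Fin 3 → k[X][X]) i := by
  have twoXX : (2 : k[X][X]) = 0 := CharTwo.two_eq_zero
  obtain ⟨z0, z1, z2, z3⟩ := zh_zero t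
  have h := Mm_map (evalRingHom (0 : k[X][X])) (C (C (C s))) (C (C (C s⁻¹))) (zh k t 0)
    (zh k t 1) (zh k t 2) (zh k t 3) 2 i
  rw [coe_evalRingHom, z0, z1, z2, z3, eval_C, eval_C] at h
  have hd' : (1 * 1 + 0 * 0 - 1 : k[X][X]) = 0 := by ring
  refine h.trans ?_
  fin_cases i
  · exact Mm_20 twoXX _ _ _ _ _ _ (CC_mul s hs) hd'
  · exact Mm_21 twoXX _ _ _ _ _ _ (CC_mul s hs) hd'
  · exact Mm_22 twoXX _ _ _ _ _ _ (CC_mul s hs) hd'

theorem pi_eval_one_MT (s t : k) (i j : Fin 3) :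
    piHom k ((MT s t i j).eval 1) =
      Mm (C s) (C s⁻¹) (ze k t 0) (ze k t 1) (ze k t 2) (ze k t 3) i j := by
  have h := Mm_map ((piHom k).comp (evalRingHom (1 : k[X][X]))) (C (C (C s))) (C (C (C s⁻¹)))
    (zh k t 0) (zh k t 1) (zh k t 2) (zh k t 3) i j
  rw [RingHom.comp_apply, RingHom.comp_apply, RingHom.comp_apply, RingHom.comp_apply,
    RingHom.comp_apply, RingHom.comp_apply, RingHom.comp_apply,
    coe_evalRingHom, zh_one, zh_one, zh_one, zh_one, eval_C, eval_C, piHom_CC, piHom_CC] at h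
  exact h

/-- polynomials over `B` reducing to a constant come from `A` -/
theorem exists_lift (g : k[X][X][X]) (hg : g.map (piHom k) = 0 ∨ g.map (piHom k) = 1) :
    ∃ g' : (Aring k)[X], g'.map (Aring k).subtype = g := by
  rw [← mem_lifts, lifts_iff_coeff_lifts]
  intro n
  have h1 : piHom k (g.coeff n) = (g.map (piHom k)).coeff n := by rw [coeff_map]
  have h2 : g.coeff n ∈ Aring k := by
    rw [mem_Aring, h1]
    rcases hg with h | h
    · exact ⟨0, by rw [h, coeff_zero, C_0]⟩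
    · rw [h, coeff_one]
      split_ifs
      · exact ⟨1, C_1⟩
      · exact ⟨0, C_0⟩
  exact ⟨⟨_, h2⟩, rfl⟩

theorem coe_eval_Aring (g : (Aring k)[X]) (c : Aring k) : ((g.eval c : Aring k) : k[X][X]) =
    (g.map (Aring k).subtype).eval (c : k[X][X]) := by
  rw [eval_map]
  exact (Polynomial.eval₂_at_apply (p := g) (Aring k).subtype c).symm

/-- Unimodular row with all the properties needed. -/
theorem exists_rows [CharP k 2] (s t : k) (hs : s ≠ 0) (ht : t ≠ 0) :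
    ∃ (w v : Fin 3 → (Aring k)[X]), dot w v = 1 ∧
      (∀ i, (w i).map (Aring k).subtype = MT s t 2 i) := by
  have hw : ∀ i, ∃ g' : (Aring k)[X], g'.map (Aring k).subtype = MT s t 2 i :=
    fun i => exists_lift _ (map_MT_row s t hs ht i)
  have hv : ∀ i, ∃ g' : (Aring k)[X], g'.map (Aring k).subtype = MiT s t i 2 :=
    fun i => exists_lift _ (map_MiT_col s t hs ht i)
  choose w hw using hw
  choose v hv using hv
  refine ⟨w, v, ?_, hw⟩
  have hinj : Function.Injective (Polynomial.map (Aring k).subtype) :=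
    Polynomial.map_injective _ Subtype.val_injective
  apply hinj
  rw [dot_apply, Polynomial.map_sum, Polynomial.map_one]
  have h : ∀ i, (w i * v i).map (Aring k).subtype = MT s t 2 i * MiT s t i 2 := by
    intro i
    rw [Polynomial.map_mul, hw, hv]
  rw [Finset.sum_congr rfl fun i _ => h i, ← Matrix.mul_apply, MT_mul_MiT s t hs,
    Matrix.one_apply_eq]

theorem row_zero [CharP k 2] (s t : k) (hs : s ≠ 0) (w : Fin 3 → (Aring k)[X])
    (hw : ∀ i, (w i).map (Aring k).subtype = MT s t 2 i) (i : Fin 3) :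
    (w i).eval 0 = (Pi.single 2 1 : Fin 3 → Aring k) i := by
  apply Subtype.val_injective
  rw [coe_eval_Aring, hw, Subring.coe_zero, eval_zero_MT s t hs]
  fin_cases i <;> simp

theorem row_one (s t : k) (w : Fin 3 → (Aring k)[X])
    (hw : ∀ i, (w i).map (Aring k).subtype = MT s t 2 i) (i : Fin 3) :
    (((w i).eval 1 : Aring k) : k[X][X]) = (MT s t 2 i).eval 1 := by
  rw [coe_eval_Aring, hw, Subring.coe_one]

/-- the matrix over `k[X,Y]` -/
noncomputable def MB (s t : k) : Matrix (Fin 3) (Fin 3) (k[X][X]) :=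
  Matrix.of fun i j => (MT s t i j).eval 1

/-- its inverse -/
noncomputable def MiB (s t : k) : Matrix (Fin 3) (Fin 3) (k[X][X]) :=
  Matrix.of fun i j => (MiT s t i j).eval 1

theorem MB_mul_MiB [CharP k 2] (s t : k) (hs : s ≠ 0) : MB s t * MiB s t = 1 := by
  ext1 i j
  rw [Matrix.mul_apply]
  have h : ∀ l, MB s t i l * MiB s t l j = (MT s t i l * MiT s t l j).eval 1 := by
    intro l
    rw [eval_mul]
    rfl
  rw [Finset.sum_congr rfl fun l _ => h l, ← Polynomial.eval_finsetSum, ← Matrix.mul_apply,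
    MT_mul_MiT s t hs, Matrix.one_apply, Matrix.one_apply]
  split_ifs
  · exact eval_one
  · exact eval_zero

theorem piHom_MB (s t : k) (i j : Fin 3) : piHom k (MB s t i j) =
    Mm (C s) (C s⁻¹) (ze k t 0) (ze k t 1) (ze k t 2) (ze k t 3) i j :=
  pi_eval_one_MT s t i j

end

section Glue

variable {A : Type*} [CommRing A]

theorem aeval_phi (c : A) (g : A[X]) :
    MvPolynomial.aeval (R := A) (fun _ : Fin 1 => c)
      (Polynomial.aeval (R := A) (MvPolynomial.X 0 : MvPolynomial (Fin 1) A) g) = g.eval c := by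
  have h : (MvPolynomial.aeval (R := A) (fun _ : Fin 1 => c)).comp
      (Polynomial.aeval (R := A) (MvPolynomial.X 0 : MvPolynomial (Fin 1) A)) =
      Polynomial.aeval c := by
    apply Polynomial.algHom_ext
    rw [AlgHom.comp_apply, Polynomial.aeval_X, MvPolynomial.aeval_X, Polynomial.aeval_X]
  have h' := DFunLike.congr_fun h g
  rw [AlgHom.comp_apply] at h'
  rw [h', Polynomial.coe_aeval_eq_eval]

/-- the transported row -/
noncomputable def ph (w : Fin 3 → A[X]) : Fin 3 → MvPolynomial (Fin 1) A :=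
  fun i => Polynomial.aeval (R := A) (MvPolynomial.X 0 : MvPolynomial (Fin 1) A) (w i)

theorem dot_ph (w v : Fin 3 → A[X]) (hwv : dot w v = 1) : dot (ph w) (ph v) = 1 := by
  rw [dot_apply] at hwv ⊢
  have h := congrArg (Polynomial.aeval (R := A) (MvPolynomial.X 0 : MvPolynomial (Fin 1) A)) hwv
  rw [map_sum, map_one] at h
  rw [← h]
  refine Finset.sum_congr rfl fun i _ => ?_
  rw [map_mul]
  rfl

theorem exists_gens (w v : Fin 3 → A[X]) (hwv : dot w v = 1)
    (hw0 : ∀ i, (w i).eval 0 = (Pi.single 2 1 : Fin 3 → A) i)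
    (Q : Type*) [AddCommGroup Q] [Module A Q]
    (e : LinearMap.ker (dot (ph w)) ≃ₗ[MvPolynomial (Fin 1) A]
      TensorProduct A (MvPolynomial (Fin 1) A) Q) :
    ∃ f0 f1 : Fin 3 → A, dot (fun i => (w i).eval 1) f0 = 0 ∧
      dot (fun i => (w i).eval 1) f1 = 0 ∧
      ∀ x, dot (fun i => (w i).eval 1) x = 0 → ∃ y0 y1 : A, x = y0 • f0 + y1 • f1 := by
  classical
  obtain ⟨e0⟩ := ker_equiv_of_extended (ph w) (ph v) (dot_ph w v hwv) e
    (MvPolynomial.aeval (R := A) (fun _ : Fin 1 => (0 : A)))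
  obtain ⟨e1⟩ := ker_equiv_of_extended (ph w) (ph v) (dot_ph w v hwv) e
    (MvPolynomial.aeval (R := A) (fun _ : Fin 1 => (1 : A)))
  have hrow0 : (fun i => MvPolynomial.aeval (R := A) (fun _ : Fin 1 => (0 : A)) (ph w i)) =
      (Pi.single 2 1 : Fin 3 → A) := by
    ext1 i
    rw [ph, aeval_phi, hw0]
  have hrow1 : (fun i => MvPolynomial.aeval (R := A) (fun _ : Fin 1 => (1 : A)) (ph w i)) =
      fun i => (w i).eval 1 := by
    ext1 i
    rw [ph, aeval_phi]
  rw [hrow0] at e0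
  rw [hrow1] at e1
  generalize (fun i => (w i).eval 1) = w1 at *
  have ψ : LinearMap.ker (dot (Pi.single 2 1 : Fin 3 → A)) ≃ₗ[A] LinearMap.ker (dot w1) :=
    e0.symm.trans e1
  have hmem : ∀ x : Fin 3 → A, x 2 = 0 →
      x ∈ LinearMap.ker (dot (Pi.single 2 1 : Fin 3 → A)) := by
    intro x hx
    rw [LinearMap.mem_ker, dot_apply, Fin.sum_univ_three]
    simp [hx]
  have hmem' : ∀ x ∈ LinearMap.ker (dot (Pi.single 2 1 : Fin 3 → A)), x 2 = 0 := by
    intro x hx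
    rw [LinearMap.mem_ker, dot_apply, Fin.sum_univ_three] at hx
    simpa using hx
  obtain ⟨E0, hE0⟩ : ∃ E : LinearMap.ker (dot (Pi.single 2 1 : Fin 3 → A)),
      (E : Fin 3 → A) = Pi.single 0 1 := ⟨⟨Pi.single 0 1, hmem _ (by simp)⟩, rfl⟩
  obtain ⟨E1, hE1⟩ : ∃ E : LinearMap.ker (dot (Pi.single 2 1 : Fin 3 → A)),
      (E : Fin 3 → A) = Pi.single 1 1 := ⟨⟨Pi.single 1 1, hmem _ (by simp)⟩, rfl⟩
  have hE : ∀ y : LinearMap.ker (dot (Pi.single 2 1 : Fin 3 → A)),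
      y = (y : Fin 3 → A) 0 • E0 + (y : Fin 3 → A) 1 • E1 := by
    intro y
    apply Subtype.ext
    have h2 := hmem' _ y.2
    rw [Submodule.coe_add, Submodule.coe_smul, Submodule.coe_smul, hE0, hE1]
    ext1 i
    fin_cases i
    · simp
    · simp
    · simp [h2]
  refine ⟨ψ E0, ψ E1, (ψ E0).2, (ψ E1).2, ?_⟩
  intro x hx
  obtain ⟨y, hy⟩ := ψ.surjective ⟨x, hx⟩
  refine ⟨(y : Fin 3 → A) 0, (y : Fin 3 → A) 1, ?_⟩
  have h3 := congrArg ψ (hE y)
  rw [hy, map_add, map_smul, map_smul] at h3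
  exact congrArg Subtype.val h3

end Glue

theorem main_aux {k : Type} [Field k] [CharP k 2] (θ : k →+ k)
    (hθ : ∀ l z, θ (l ^ 2 * z) = l * θ z) (s t : k)
    (hs : s ≠ 0) (ht : t ≠ 0) (h1 : θ 1 = 1) (hs1 : θ s = 0) (ht1 : θ t = 0)
    (hst1 : θ (s * t) = 0) :
    ∃ (w v : Fin 3 → MvPolynomial (Fin 1) (Aring k)),
      dot w v = 1 ∧
      ∀ (Q : Type) [AddCommGroup Q] [Module (Aring k) Q],
        (LinearMap.ker (dot w) ≃ₗ[MvPolynomial (Fin 1) (Aring k)]
          TensorProduct (Aring k) (MvPolynomial (Fin 1) (Aring k)) Q) → False := by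
  obtain ⟨w, v, hwv, hw⟩ := exists_rows (k := k) s t hs ht
  refine ⟨ph w, ph v, dot_ph w v hwv, ?_⟩
  intro Q _ _ e
  obtain ⟨f0, f1, hf0, hf1, hgen⟩ := exists_gens w v hwv (row_zero s t hs w hw) Q e
  have twoX : (2 : k[X]) = 0 := CharTwo.two_eq_zero
  have hss' := C_mul' s hs
  have hd := ze_det t ht
  obtain ⟨e1, e2, e3, e4⟩ := al_eq s t ht
  have hv1 : dot (fun i => (w i).eval 1) (fun i => (v i).eval 1) = 1 := by
    rw [dot_apply] at hwv ⊢
    have h := congrArg (Polynomial.eval (1 : Aring k)) hwv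
    rw [Polynomial.eval_finsetSum, Polynomial.eval_one] at h
    refine Eq.trans ?_ h
    refine Finset.sum_congr rfl fun i _ => ?_
    rw [Polynomial.eval_mul]
  exact not_free θ hθ s t hs ht h1 hs1 ht1 hst1 (MB s t) (MiB s t) (MB_mul_MiB s t hs)
    ((piHom_MB s t 0 0).trans ((Mm_00 twoX _ _ _ _ _ _ hss' hd).trans e1.symm))
    ((piHom_MB s t 0 1).trans ((Mm_01 twoX _ _ _ _ _ _ hss' hd).trans e2.symm))
    ((piHom_MB s t 0 2).trans (Mm_02 twoX _ _ _ _ _ _ hss' hd))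
    ((piHom_MB s t 1 0).trans ((Mm_10 twoX _ _ _ _ _ _ hss' hd).trans e3.symm))
    ((piHom_MB s t 1 1).trans ((Mm_11 twoX _ _ _ _ _ _ hss' hd).trans e4.symm))
    ((piHom_MB s t 1 2).trans (Mm_12 twoX _ _ _ _ _ _ hss' hd))
    (fun i => (w i).eval 1) (fun i => (v i).eval 1) f0 f1 (row_one s t w hw) hv1 hf0 hf1 hgen

/-- The counterexample. -/
theorem main :
    ∃ (A : Type) (_ : CommRing A) (w v : Fin 3 → MvPolynomial (Fin 1) A),
      dot w v = 1 ∧
      ∀ (Q : Type) [AddCommGroup Q] [Module A Q],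
        (LinearMap.ker (dot w) ≃ₗ[MvPolynomial (Fin 1) A]
          TensorProduct A (MvPolynomial (Fin 1) A) Q) → False := by
  obtain ⟨θ, s, t, hθ, hs, ht, h1, hs1, ht1, hst1⟩ := exists_theta
  exact ⟨Aring KK, inferInstance, main_aux θ hθ s t hs ht h1 hs1 ht1 hst1⟩

end Pool.Agent.TH208.Lam
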