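import Pool.Agent.TH208.HermMain

set_option autoImplicit false

namespace Pool.Agent.TH208.Herm

open Polynomial Pool.Agent.TH208.Lam

/-- stably free modules over a local ring are free -/
theorem free_of_local {A : Type*} [CommRing A] [IsLocalRing A] (M : Type*) [AddCommGroup M]
    [Module A M] (h : ∃ n m : ℕ, Nonempty ((M × (Fin n → A)) ≃ₗ[A] (Fin m → A))) :
    Module.Free A M := by
  obtain ⟨n, m, ⟨e⟩⟩ := h
  haveI : Module.Projective A M := Module.Projective.of_split
    (e.toLinearMap.comp (LinearMap.inl A M (Fin n → A)))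
    ((LinearMap.fst A M (Fin n → A)).comp e.symm.toLinearMap) (by ext; simp)
  haveI : Module.Finite A M := Module.Finite.of_surjective
    ((LinearMap.fst A M (Fin n → A)).comp e.symm.toLinearMap) (fun y => ⟨e (y, 0), by simp⟩)
  exact Module.free_of_flat_of_isLocalRing

section

variable (k : Type) [Field k]

/-- the maximal ideal `ker pi` of `A` -/
noncomputable def II : Ideal (Aring k) := RingHom.ker ((piHom k).comp (Aring k).subtype)

instance : (II k).IsPrime := RingHom.ker_isPrime _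

/-- the local ring -/
abbrev LL : Type := Localization.AtPrime (II k)

/-- the common fraction field -/
abbrev FF : Type := FractionRing (k[X][X])

/-- the inclusion of `A` in the fraction field of `k[X,Y]` -/
noncomputable def io : Aring k →+* FF k := (algebraMap (k[X][X]) (FF k)).comp (Aring k).subtype

theorem io_inj : Function.Injective (io k) := by
  intro x y h
  apply Subtype.val_injective
  exact IsFractionRing.injective (k[X][X]) (FF k) h

theorem io_unit (y : (II k).primeCompl) : IsUnit (io k y) := by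
  rw [isUnit_iff_ne_zero]
  intro h
  have h0 : (y : Aring k) = 0 := io_inj k (by rw [h, map_zero])
  apply y.2
  rw [h0]
  exact (II k).zero_mem

/-- the map from the local ring to the fraction field -/
noncomputable def jj : LL k →+* FF k :=
  IsLocalization.lift (M := (II k).primeCompl) (g := io k) (io_unit k)

theorem jj_comp : (jj k).comp (algebraMap (Aring k) (LL k)) = io k :=
  IsLocalization.lift_comp _

/-- the image of the complement of the maximal ideal -/
noncomputable def SI : Submonoid (FF k) := (II k).primeCompl.map (io k)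

theorem jj_mem (x : LL k) : ∃ s ∈ SI k, s ∈ (Aring k).map (algebraMap (k[X][X]) (FF k)) ∧
    s * jj k x ∈ (Aring k).map (algebraMap (k[X][X]) (FF k)) := by
  obtain ⟨⟨a, b⟩, h⟩ := IsLocalization.surj (II k).primeCompl x
  simp only at h
  refine ⟨io k b, ⟨b, b.2, rfl⟩, ⟨(b : Aring k), (b : Aring k).2, rfl⟩, ?_⟩
  have h1 := congrArg (jj k) h
  rw [map_mul, ← RingHom.comp_apply, ← RingHom.comp_apply, jj_comp] at h1
  rw [mul_comm, h1]
  exact ⟨a, a.2, rfl⟩

theorem map_jj_mem (p : (LL k)[X]) :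
    mapRingHom (jj k) p ∈ RS ((Aring k).map (algebraMap (k[X][X]) (FF k))) (SI k) := by
  rw [p.as_sum_range_C_mul_X_pow, map_sum]
  refine Subring.sum_mem _ fun n _ => ?_
  rw [map_mul, map_pow]
  refine Subring.mul_mem _ ?_ (Subring.pow_mem _ ?_ _)
  · obtain ⟨s, hs, hsA, h⟩ := jj_mem k (p.coeff n)
    refine ⟨s, hs, hsA, fun j => ?_⟩
    rw [coe_mapRingHom, map_C, coeff_C]
    split_ifs
    · exact h
    · rw [mul_zero]; exact Subring.zero_mem _
  · refine ⟨1, Submonoid.one_mem _, Subring.one_mem _, fun j => ?_⟩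
    rw [coe_mapRingHom, map_X, coeff_X, one_mul]
    split_ifs
    · exact Subring.one_mem _
    · exact Subring.zero_mem _

end

section

variable {k : Type} [Field k]

theorem CC_mem (c : k) : (C (C c) : k[X][X]) ∈ Aring k := by
  rw [mem_Aring]
  exact ⟨c, (piHom_CC c).symm⟩

theorem norm_S (s : FF k) (hs : s ∈ SI k) : ∃ (a c : k[X][X]) (_ : a ∈ Aring k) (_ : c ∈ Aring k),
    a + c = 1 ∧ (∀ b, c * b ∈ Aring k) ∧
    ∃ e ∈ (Aring k).map (algebraMap (k[X][X]) (FF k)), algebraMap (k[X][X]) (FF k) a = e * s := by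
  obtain ⟨b0, hb0, rfl⟩ := hs
  have hb0' : piHom k (b0 : k[X][X]) ≠ 0 := by
    intro h
    apply hb0
    exact h
  obtain ⟨c, hc⟩ := (mem_Aring _).1 b0.2
  have hc0 : c ≠ 0 := by
    rintro rfl
    apply hb0'
    rw [← hc, C_0]
  have ha : C (C c⁻¹) * (b0 : k[X][X]) ∈ Aring k := Subring.mul_mem _ (CC_mem _) b0.2
  have hpa : piHom k (1 - C (C c⁻¹) * (b0 : k[X][X])) = 0 := by
    rw [map_sub, map_one, map_mul, piHom_CC, ← hc, ← C_mul, inv_mul_cancel₀ hc0, C_1, sub_self]
  refine ⟨C (C c⁻¹) * b0, 1 - C (C c⁻¹) * b0, ha, Subring.sub_mem _ (Subring.one_mem _) ha,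
    by ring, ?_, ?_⟩
  · intro b
    rw [mem_Aring]
    refine ⟨0, ?_⟩
    rw [map_mul, hpa, zero_mul, C_0]
  · refine ⟨_, ⟨C (C c⁻¹), CC_mem _, rfl⟩, ?_⟩
    rw [map_mul]
    rfl

theorem local_no [CharP k 2] (θ : k →+ k)
    (hθ : ∀ l z, θ (l ^ 2 * z) = l * θ z) (s t : k)
    (hs : s ≠ 0) (ht : t ≠ 0) (h1 : θ 1 = 1) (hs1 : θ s = 0) (ht1 : θ t = 0)
    (hst1 : θ (s * t) = 0) (w v : Fin 3 → (Aring k)[X]) (hwv : dot w v = 1)
    (hw : ∀ i, (w i).map (Aring k).subtype = MT s t 2 i)
    (hfree : Module.Free (LL k)[X]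
      (LinearMap.ker (dot (fun i => (w i).map (algebraMap (Aring k) (LL k)))))) : False := by
  classical
  have hwvL : dot (fun i => (w i).map (algebraMap (Aring k) (LL k)))
      (fun i => (v i).map (algebraMap (Aring k) (LL k))) = 1 := by
    rw [dot_apply] at hwv ⊢
    have h := congrArg (Polynomial.map (algebraMap (Aring k) (LL k))) hwv
    rw [Polynomial.map_sum, Polynomial.map_one] at h
    rw [← h]
    refine Finset.sum_congr rfl fun i _ => ?_
    rw [Polynomial.map_mul]
  obtain ⟨N0, N0', hN0, hNw0⟩ := exists_matrix _ _ hwvL hfree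
  set AK := (Aring k).map (algebraMap (k[X][X]) (FF k)) with hAK
  -- common denominators
  obtain ⟨s1, hs1S, hs1A, d1⟩ := common AK (SI k) (Finset.univ : Finset (Fin 3 × Fin 3))
    (fun x => mapRingHom (jj k) (N0 x.1 x.2)) (fun x _ => map_jj_mem k _)
  obtain ⟨s2, hs2S, hs2A, d2⟩ := common AK (SI k) (Finset.univ : Finset (Fin 3 × Fin 3))
    (fun x => mapRingHom (jj k) (N0' x.1 x.2)) (fun x _ => map_jj_mem k _)
  obtain ⟨a, c, ha, hc, hac, hcB, e, he, hae⟩ := norm_S (s1 * s2) ((SI k).mul_mem hs1S hs2S)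
  have mN : ∀ i j, (N0.map (mapRingHom (jj k))) i j ∈
      RS AK (pw (algebraMap (k[X][X]) (FF k) a)) := by
    intro i j
    refine ⟨_, ⟨1, pow_one _⟩, ⟨a, ha, rfl⟩, fun l => ?_⟩
    have : algebraMap (k[X][X]) (FF k) a * ((N0.map (mapRingHom (jj k))) i j).coeff l =
        e * (s2 * (s1 * (mapRingHom (jj k) (N0 i j)).coeff l)) := by
      rw [hae, Matrix.map_apply]; ring
    rw [this]
    exact AK.mul_mem he (AK.mul_mem hs2A (d1 (i, j) (Finset.mem_univ _) l))
  have mN' : ∀ i j, (N0'.map (mapRingHom (jj k))) i j ∈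
      RS AK (pw (algebraMap (k[X][X]) (FF k) a)) := by
    intro i j
    refine ⟨_, ⟨1, pow_one _⟩, ⟨a, ha, rfl⟩, fun l => ?_⟩
    have : algebraMap (k[X][X]) (FF k) a * ((N0'.map (mapRingHom (jj k))) i j).coeff l =
        e * (s1 * (s2 * (mapRingHom (jj k) (N0' i j)).coeff l)) := by
      rw [hae, Matrix.map_apply]; ring
    rw [this]
    exact AK.mul_mem he (AK.mul_mem hs1A (d2 (i, j) (Finset.mem_univ _) l))
  have hN : N0.map (mapRingHom (jj k)) * N0'.map (mapRingHom (jj k)) = 1 := by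
    rw [← Matrix.map_mul, hN0]
    exact Matrix.map_one _ (map_zero _) (map_one _)
  have hNw : Matrix.vecMul
      (fun i => (w i).map ((algebraMap (k[X][X]) (FF k)).comp (Aring k).subtype))
      (N0.map (mapRingHom (jj k))) = (Pi.single 2 1 : Fin 3 → (FF k)[X]) := by
    ext1 j
    have h := congrArg (mapRingHom (jj k)) (congrFun hNw0 j)
    rw [Matrix.vecMul, dotProduct, map_sum] at h
    rw [Matrix.vecMul, dotProduct]
    have h3 : mapRingHom (jj k) ((Pi.single 2 1 : Fin 3 → (LL k)[X]) j) =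
        (Pi.single 2 1 : Fin 3 → (FF k)[X]) j := by
      rw [Pi.single_apply, Pi.single_apply]
      split_ifs
      · exact map_one _
      · exact map_zero _
    rw [h3] at h
    rw [← h]
    refine Finset.sum_congr rfl fun i _ => ?_
    rw [map_mul, Matrix.map_apply, coe_mapRingHom, Polynomial.map_map, jj_comp]
    rfl
  have hM0 := eval_zero_MT_all s t hs
  obtain ⟨f0, f1, hf0, hf1, hgen⟩ := patch_rows (K := FF k)
    (IsFractionRing.injective (k[X][X]) (FF k)) (Aring k) a c ha hc hac hcB w (MT s t) (MiT s t)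
    (MT_mul_MiT s t hs) hM0 hw (N0.map (mapRingHom (jj k))) (N0'.map (mapRingHom (jj k))) hN
    mN mN' hNw
  exact no_gens θ hθ s t hs ht h1 hs1 ht1 hst1 w v hwv hw f0 f1 hf0 hf1 hgen

theorem herm_aux [CharP k 2] (θ : k →+ k)
    (hθ : ∀ l z, θ (l ^ 2 * z) = l * θ z) (s t : k)
    (hs : s ≠ 0) (ht : t ≠ 0) (h1 : θ 1 = 1) (hs1 : θ s = 0) (ht1 : θ t = 0)
    (hst1 : θ (s * t) = 0) :
    ∃ (w v : Fin 3 → (LL k)[X]), dot w v = 1 ∧
      ¬ Module.Free (LL k)[X] (LinearMap.ker (dot w)) := by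
  obtain ⟨w, v, hwv, hw⟩ := exists_rows (k := k) s t hs ht
  refine ⟨fun i => (w i).map (algebraMap (Aring k) (LL k)),
    fun i => (v i).map (algebraMap (Aring k) (LL k)), ?_, fun hfree => ?_⟩
  · rw [dot_apply] at hwv ⊢
    have h := congrArg (Polynomial.map (algebraMap (Aring k) (LL k))) hwv
    rw [Polynomial.map_sum, Polynomial.map_one] at h
    rw [← h]
    refine Finset.sum_congr rfl fun i _ => ?_
    rw [Polynomial.map_mul]
  · exact local_no θ hθ s t hs ht h1 hs1 ht1 hst1 w v hwv hw hfree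

end

/-- A local ring whose polynomial ring is not Hermite. -/
theorem main : ∃ (A : Type) (_ : CommRing A) (_ : IsLocalRing A) (w v : Fin 3 → A[X]),
    dot w v = 1 ∧ ¬ Module.Free A[X] (LinearMap.ker (dot w)) := by
  obtain ⟨θ, s, t, hθ, hs, ht, h1, hs1, ht1, hst1⟩ := exists_theta
  exact ⟨LL KK, inferInstance, inferInstance, herm_aux θ hθ s t hs ht h1 hs1 ht1 hst1⟩

end Pool.Agent.TH208.Herm
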