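import Mathlib

set_option autoImplicit false

namespace Pool.Agent.TH208.Herm

open Polynomial

section Patch

variable {K : Type*} [Field K]

/-- polynomials whose coefficients lie in `A` after multiplying by one element of `S` -/
def RS (A : Subring K) (S : Submonoid K) : Subring K[X] where
  carrier := {p | ∃ s ∈ S, s ∈ A ∧ ∀ j, s * p.coeff j ∈ A}
  mul_mem' := by
    rintro p q ⟨s, hs, hsA, hp⟩ ⟨t, ht, htA, hq⟩
    refine ⟨s * t, S.mul_mem hs ht, A.mul_mem hsA htA, fun j => ?_⟩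
    rw [coeff_mul, Finset.mul_sum]
    refine A.sum_mem fun x _ => ?_
    have : s * t * (p.coeff x.1 * q.coeff x.2) = (s * p.coeff x.1) * (t * q.coeff x.2) := by ring
    rw [this]
    exact A.mul_mem (hp _) (hq _)
  one_mem' := by
    refine ⟨1, S.one_mem, A.one_mem, fun j => ?_⟩
    rw [coeff_one, one_mul]
    split_ifs
    · exact A.one_mem
    · exact A.zero_mem
  add_mem' := by
    rintro p q ⟨s, hs, hsA, hp⟩ ⟨t, ht, htA, hq⟩
    refine ⟨s * t, S.mul_mem hs ht, A.mul_mem hsA htA, fun j => ?_⟩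
    have : s * t * ((p + q).coeff j) = t * (s * p.coeff j) + s * (t * q.coeff j) := by
      rw [coeff_add]; ring
    rw [this]
    exact A.add_mem (A.mul_mem htA (hp _)) (A.mul_mem hsA (hq _))
  zero_mem' := by
    refine ⟨1, S.one_mem, A.one_mem, fun j => ?_⟩
    rw [coeff_zero, mul_zero]
    exact A.zero_mem
  neg_mem' := by
    rintro p ⟨s, hs, hsA, hp⟩
    refine ⟨s, hs, hsA, fun j => ?_⟩
    rw [coeff_neg, mul_neg]
    exact A.neg_mem (hp _)

theorem mem_RS (A : Subring K) (S : Submonoid K) (p : K[X]) :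
    p ∈ RS A S ↔ ∃ s ∈ S, s ∈ A ∧ ∀ j, s * p.coeff j ∈ A := Iff.rfl

theorem common (A : Subring K) (S : Submonoid K) {ι : Type*} (T : Finset ι) (p : ι → K[X])
    (h : ∀ i ∈ T, p i ∈ RS A S) : ∃ s ∈ S, s ∈ A ∧ ∀ i ∈ T, ∀ j, s * (p i).coeff j ∈ A := by
  classical
  induction T using Finset.induction_on with
  | empty => exact ⟨1, S.one_mem, A.one_mem, by simp⟩
  | insert a T ha ih =>
    obtain ⟨s, hs, hsA, h1⟩ := ih (fun i hi => h i (Finset.mem_insert_of_mem hi))
    obtain ⟨t, ht, htA, h2⟩ := h a (Finset.mem_insert_self a T)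
    refine ⟨s * t, S.mul_mem hs ht, A.mul_mem hsA htA, fun i hi j => ?_⟩
    rcases Finset.mem_insert.1 hi with h3 | h3
    · subst h3
      rw [mul_assoc]
      exact A.mul_mem hsA (h2 j)
    · have : s * t * (p i).coeff j = t * (s * (p i).coeff j) := by ring
      rw [this]
      exact A.mul_mem htA (h1 i h3 j)

/-- the substitution `T ↦ l T` -/
noncomputable def sc (l : K) : K[X] →+* K[X] := compRingHom (C l * X)

theorem coeff_sc (l : K) (p : K[X]) (j : ℕ) : (sc l p).coeff j = p.coeff j * l ^ j := by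
  rw [sc, coe_compRingHom_apply, comp_C_mul_X_coeff]

/-- the powers of `f` -/
def pw (f : K) : Submonoid K := Submonoid.powers f

theorem sc_mem (A : Subring K) (f : K) (hf : f ∈ A) (s a : K) (m : ℕ)
    (hs : s ∈ A) (ha : a ∈ A) (p : K[X]) (hp0 : p.coeff 0 ∈ A)
    (hp : ∀ j, s * f ^ m * p.coeff j ∈ A) : sc (s * a) p ∈ RS A (pw f) := by
  refine ⟨f ^ m, ⟨m, rfl⟩, A.pow_mem hf m, fun j => ?_⟩
  rw [coeff_sc]
  rcases Nat.eq_zero_or_pos j with h | h
  · subst h
    rw [pow_zero, mul_one]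
    exact A.mul_mem (A.pow_mem hf m) hp0
  · obtain ⟨i, rfl⟩ : ∃ i, j = i + 1 := ⟨j - 1, by omega⟩
    have : f ^ m * (p.coeff (i + 1) * (s * a) ^ (i + 1)) =
        (s * f ^ m * p.coeff (i + 1)) * (a * (s * a) ^ i) := by ring
    rw [this]
    exact A.mul_mem (hp _) (A.mul_mem ha (A.pow_mem (A.mul_mem hs ha) i))

theorem sub_sc_mem (A : Subring K) (S : Submonoid K) (f : K) (hf : f ∈ A) (l b : K) (s : K)
    (m : ℕ) (hsS : s ∈ S) (hs : s ∈ A) (hl : l ∈ A) (hb : b ∈ A) (hlb : l + f ^ (2 * m) * b = 1)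
    (p q : K[X])
    (hp : ∀ j, s * f ^ m * p.coeff j ∈ A) (hq : ∀ j, s * f ^ m * q.coeff j ∈ A) :
    (p - sc l p) * sc l q ∈ RS A S := by
  refine ⟨s * s, S.mul_mem hsS hsS, A.mul_mem hs hs, fun j => ?_⟩
  rw [coeff_mul, Finset.mul_sum]
  refine A.sum_mem fun x _ => ?_
  rw [coeff_sub, coeff_sc, coeff_sc]
  have hgeom : 1 - l ^ x.1 = (f ^ (2 * m) * b) * ∑ i ∈ Finset.range x.1, l ^ i := by
    have h1 : f ^ (2 * m) * b = 1 - l := by rw [← hlb]; ring
    rw [h1, mul_comm]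
    exact (geom_sum_mul_neg l x.1).symm
  have : s * s * ((p.coeff x.1 - p.coeff x.1 * l ^ x.1) * (q.coeff x.2 * l ^ x.2)) =
      (s * f ^ m * p.coeff x.1) * (s * f ^ m * q.coeff x.2) *
        (b * (∑ i ∈ Finset.range x.1, l ^ i) * l ^ x.2) := by
    have h2 : p.coeff x.1 - p.coeff x.1 * l ^ x.1 = p.coeff x.1 * (1 - l ^ x.1) := by ring
    rw [h2, hgeom]
    ring
  rw [this]
  refine A.mul_mem (A.mul_mem (hp _) (hq _)) (A.mul_mem (A.mul_mem hb ?_) (A.pow_mem hl _))
  exact A.sum_mem fun i _ => A.pow_mem hl i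

variable {n : Type*} [Fintype n] [DecidableEq n]

theorem patch (A : Subring K) (S : Submonoid K) (f : K) (hf : f ∈ A)
    (hco : ∀ s ∈ S, s ∈ A → ∀ m : ℕ, ∃ a ∈ A, ∃ b ∈ A, s * a + f ^ m * b = 1)
    (G1 G1' G2 G2' : Matrix n n K[X]) (h1 : G1 * G1' = 1) (h2 : G2 * G2' = 1)
    (m1 : ∀ i j, G1 i j ∈ RS A S) (m1' : ∀ i j, G1' i j ∈ RS A S)
    (m2 : ∀ i j, G2 i j ∈ RS A (pw f)) (m2' : ∀ i j, G2' i j ∈ RS A (pw f))
    (z1 : G1.map (fun p => p.coeff 0) = 1) (z1' : G1'.map (fun p => p.coeff 0) = 1)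
    (z2 : G2.map (fun p => p.coeff 0) = 1) (z2' : G2'.map (fun p => p.coeff 0) = 1) :
    ∃ l : K, ∀ i j e, ((G2 * (G2' * G1).map (sc l)) i j).coeff e ∈ A ∧
      (((G1' * G2).map (sc l) * G2') i j).coeff e ∈ A := by
  classical
  have h1' : G1' * G1 = 1 := mul_eq_one_comm.1 h1
  have h2' : G2' * G2 = 1 := mul_eq_one_comm.1 h2
  set P := G2' * G1 with hP
  set Q := G1' * G2 with hQ
  have hPQ : P * Q = 1 := by
    rw [hP, hQ, Matrix.mul_assoc, ← Matrix.mul_assoc G1, h1, Matrix.one_mul, h2']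
  have hQP : Q * P = 1 := mul_eq_one_comm.1 hPQ
  -- common denominators
  obtain ⟨s1, hs1, hs1A, d1⟩ := common A S (Finset.univ : Finset (n × n))
    (fun x => G1 x.1 x.2) (fun x _ => m1 _ _)
  obtain ⟨s2, hs2, hs2A, d2⟩ := common A S (Finset.univ : Finset (n × n))
    (fun x => G1' x.1 x.2) (fun x _ => m1' _ _)
  obtain ⟨f1, ⟨e1, he1⟩, -, d3⟩ := common A (pw f) (Finset.univ : Finset (n × n))
    (fun x => G2 x.1 x.2) (fun x _ => m2 _ _)
  obtain ⟨f2, ⟨e2, he2⟩, -, d4⟩ := common A (pw f) (Finset.univ : Finset (n × n))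
    (fun x => G2' x.1 x.2) (fun x _ => m2' _ _)
  simp only at he1 he2
  set s := s1 * s2 with hs
  set m := e1 + e2 with hm
  have hsS : s ∈ S := S.mul_mem hs1 hs2
  have hsA : s ∈ A := A.mul_mem hs1A hs2A
  have D1 : ∀ i j e, s * (G1 i j).coeff e ∈ A := by
    intro i j e
    have : s * (G1 i j).coeff e = s2 * (s1 * (G1 i j).coeff e) := by rw [hs]; ring
    rw [this]
    exact A.mul_mem hs2A (d1 (i, j) (Finset.mem_univ _) e)
  have D2 : ∀ i j e, s * (G1' i j).coeff e ∈ A := by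
    intro i j e
    have : s * (G1' i j).coeff e = s1 * (s2 * (G1' i j).coeff e) := by rw [hs]; ring
    rw [this]
    exact A.mul_mem hs1A (d2 (i, j) (Finset.mem_univ _) e)
  have D3 : ∀ i j e, f ^ m * (G2 i j).coeff e ∈ A := by
    intro i j e
    have : f ^ m * (G2 i j).coeff e = f ^ e2 * (f ^ e1 * (G2 i j).coeff e) := by rw [hm]; ring
    rw [this, he1]
    exact A.mul_mem (A.pow_mem hf _) (d3 (i, j) (Finset.mem_univ _) e)
  have D4 : ∀ i j e, f ^ m * (G2' i j).coeff e ∈ A := by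
    intro i j e
    have : f ^ m * (G2' i j).coeff e = f ^ e1 * (f ^ e2 * (G2' i j).coeff e) := by rw [hm]; ring
    rw [this, he2]
    exact A.mul_mem (A.pow_mem hf _) (d4 (i, j) (Finset.mem_univ _) e)
  have DP : ∀ i j e, s * f ^ m * (P i j).coeff e ∈ A := by
    intro i j e
    rw [hP, Matrix.mul_apply, finsetSum_coeff, Finset.mul_sum]
    refine A.sum_mem fun x _ => ?_
    rw [coeff_mul, Finset.mul_sum]
    refine A.sum_mem fun y _ => ?_
    have : s * f ^ m * ((G2' i x).coeff y.1 * (G1 x j).coeff y.2) =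
        (f ^ m * (G2' i x).coeff y.1) * (s * (G1 x j).coeff y.2) := by ring
    rw [this]
    exact A.mul_mem (D4 _ _ _) (D1 _ _ _)
  have DQ : ∀ i j e, s * f ^ m * (Q i j).coeff e ∈ A := by
    intro i j e
    rw [hQ, Matrix.mul_apply, finsetSum_coeff, Finset.mul_sum]
    refine A.sum_mem fun x _ => ?_
    rw [coeff_mul, Finset.mul_sum]
    refine A.sum_mem fun y _ => ?_
    have : s * f ^ m * ((G1' i x).coeff y.1 * (G2 x j).coeff y.2) =
        (s * (G1' i x).coeff y.1) * (f ^ m * (G2 x j).coeff y.2) := by ring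
    rw [this]
    exact A.mul_mem (D2 _ _ _) (D3 _ _ _)
  -- values at zero
  have ev : ∀ M N : Matrix n n K[X], (M * N).map (fun p => p.coeff 0) =
      M.map (fun p => p.coeff 0) * N.map (fun p => p.coeff 0) := by
    intro M N
    exact Matrix.map_mul (f := constantCoeff (R := K))
  have P0 : ∀ i j, (P i j).coeff 0 ∈ A := by
    intro i j
    have : P.map (fun p => p.coeff 0) = 1 := by rw [hP, ev, z2', z1, Matrix.one_mul]
    have h := congrFun (congrFun this i) j
    rw [Matrix.map_apply] at h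
    rw [h, Matrix.one_apply]
    split_ifs
    · exact A.one_mem
    · exact A.zero_mem
  have Q0 : ∀ i j, (Q i j).coeff 0 ∈ A := by
    intro i j
    have : Q.map (fun p => p.coeff 0) = 1 := by rw [hQ, ev, z1', z2, Matrix.one_mul]
    have h := congrFun (congrFun this i) j
    rw [Matrix.map_apply] at h
    rw [h, Matrix.one_apply]
    split_ifs
    · exact A.one_mem
    · exact A.zero_mem
  obtain ⟨a, ha, b, hb, hab⟩ := hco s hsS hsA (2 * m)
  set l := s * a with hl
  have hlA : l ∈ A := A.mul_mem hsA ha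
  have scm : ∀ M N : Matrix n n K[X], (M * N).map (sc l) = M.map (sc l) * N.map (sc l) := by
    intro M N
    exact Matrix.map_mul
  have sc1 : (1 : Matrix n n K[X]).map (sc l) = 1 := Matrix.map_one _ (map_zero _) (map_one _)
  have PQl : P.map (sc l) * Q.map (sc l) = 1 := by rw [← scm, hPQ, sc1]
  have QPl : Q.map (sc l) * P.map (sc l) = 1 := by rw [← scm, hQP, sc1]
  have PR : ∀ i j, P.map (sc l) i j ∈ RS A (pw f) := fun i j =>
    sc_mem A f hf s a m hsA ha _ (P0 i j) (DP i j)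
  have QR : ∀ i j, Q.map (sc l) i j ∈ RS A (pw f) := fun i j =>
    sc_mem A f hf s a m hsA ha _ (Q0 i j) (DQ i j)
  have mulmem : ∀ (R : Subring K[X]) (M N : Matrix n n K[X]), (∀ i j, M i j ∈ R) →
      (∀ i j, N i j ∈ R) → ∀ i j, (M * N) i j ∈ R := by
    intro R M N hM hN i j
    rw [Matrix.mul_apply]
    exact R.sum_mem fun x _ => R.mul_mem (hM _ _) (hN _ _)
  have onemem : ∀ (R : Subring K[X]) (i j : n), (1 : Matrix n n K[X]) i j ∈ R := by
    intro R i j
    rw [Matrix.one_apply]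
    split_ifs
    · exact R.one_mem
    · exact R.zero_mem
  have QPS : ∀ i j, (Q * P.map (sc l)) i j ∈ RS A S := by
    intro i j
    have : Q * P.map (sc l) = 1 + (Q - Q.map (sc l)) * P.map (sc l) := by
      rw [Matrix.sub_mul, QPl]; abel
    rw [this, Matrix.add_apply]
    refine (RS A S).add_mem (onemem _ _ _) ?_
    rw [Matrix.mul_apply]
    refine (RS A S).sum_mem fun x _ => ?_
    exact sub_sc_mem A S f hf l b s m hsS hsA hlA hb hab _ _ (DQ _ _) (DP _ _)
  have QPS' : ∀ i j, (Q.map (sc l) * P) i j ∈ RS A S := by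
    intro i j
    have : Q.map (sc l) * P = 1 + Q.map (sc l) * (P - P.map (sc l)) := by
      rw [Matrix.mul_sub, QPl]; abel
    rw [this, Matrix.add_apply]
    refine (RS A S).add_mem (onemem _ _ _) ?_
    rw [Matrix.mul_apply]
    refine (RS A S).sum_mem fun x _ => ?_
    rw [mul_comm]
    exact sub_sc_mem A S f hf l b s m hsS hsA hlA hb hab _ _ (DP _ _) (DQ _ _)
  have inter : ∀ p : K[X], p ∈ RS A S → p ∈ RS A (pw f) → ∀ e, p.coeff e ∈ A := by
    rintro p ⟨t, ht, htA, hp⟩ ⟨g, ⟨r, hr⟩, -, hp'⟩ e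
    simp only at hr
    obtain ⟨a', ha', b', hb', hab'⟩ := hco t ht htA r
    have : p.coeff e = (t * p.coeff e) * a' + (g * p.coeff e) * b' := by
      rw [← hr]
      linear_combination (-p.coeff e) * hab'
    rw [this]
    exact A.add_mem (A.mul_mem (hp e) ha') (A.mul_mem (hp' e) hb')
  refine ⟨l, fun i j e => ⟨?_, ?_⟩⟩
  · apply inter
    · have : G2 * P.map (sc l) = G1 * (Q * P.map (sc l)) := by
        rw [← Matrix.mul_assoc, hQ, ← Matrix.mul_assoc, h1, Matrix.one_mul]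
      rw [this]
      exact mulmem _ _ _ m1 QPS i j
    · exact mulmem _ _ _ m2 PR i j
  · apply inter
    · have : Q.map (sc l) * G2' = (Q.map (sc l) * P) * G1' := by
        rw [Matrix.mul_assoc, hP, Matrix.mul_assoc, h1, Matrix.mul_one]
      rw [this]
      exact mulmem _ _ _ QPS' m1' i j
    · exact mulmem _ _ _ QR m2' i j

end Patch

end Pool.Agent.TH208.Herm
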