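import Pool.Agent.TH208.LamFinal
import Pool.Agent.TH208.HermPatch

set_option autoImplicit false

namespace Pool.Agent.TH208.Herm

open Polynomial Pool.Agent.TH208.Lam

section Basics

variable {R : Type*} [CommRing R]

/-- a free kernel gives an invertible matrix -/
theorem exists_matrix [Nontrivial R] (w v : Fin 3 → R) (hwv : dot w v = 1)
    (hfree : Module.Free R (LinearMap.ker (dot w))) :
    ∃ N N' : Matrix (Fin 3) (Fin 3) R, N * N' = 1 ∧
      Matrix.vecMul w N = (Pi.single 2 1 : Fin 3 → R) := by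
  classical
  obtain ⟨e⟩ := stablyFree_ker w v hwv
  haveI : Module.Finite R (LinearMap.ker (dot w)) :=
    Module.Finite.of_surjective ((LinearMap.fst R _ _).comp e.symm.toLinearMap)
      (fun y => ⟨e (y, 0), by simp⟩)
  have hrank : Module.finrank R (LinearMap.ker (dot w)) = 2 := by
    have h1 := e.finrank_eq
    rw [Module.finrank_prod, Module.finrank_fin_fun, Module.finrank_fin_fun] at h1
    omega
  let b : Module.Basis (Fin 2) R (LinearMap.ker (dot w)) := Module.finBasisOfFinrankEq R _ hrank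
  have hb : ∀ i, dot w (b i : Fin 3 → R) = 0 := fun i => (b i).2
  have hx : ∀ i : Fin 3, ∃ y0 y1 : R,
      (Pi.single i 1 - w i • v : Fin 3 → R) = y0 • (b 0 : Fin 3 → R) + y1 • (b 1 : Fin 3 → R) := by
    intro i
    have hmem : (Pi.single i 1 - w i • v : Fin 3 → R) ∈ LinearMap.ker (dot w) := by
      rw [LinearMap.mem_ker, map_sub, map_smul, hwv, dot_apply]
      simp [Pi.single_apply]
    have h := b.sum_repr ⟨_, hmem⟩
    rw [Fin.sum_univ_two] at h
    refine ⟨_, _, (congrArg Subtype.val h).symm⟩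
  choose y0 y1 hy using hx
  refine ⟨Matrix.of fun i j => ![(b 0 : Fin 3 → R) i, (b 1 : Fin 3 → R) i, v i] j,
    Matrix.of fun i j => ![y0 j, y1 j, w j] i, ?_, ?_⟩
  · ext i j
    rw [Matrix.mul_apply, Fin.sum_univ_three]
    have h := congrFun (hy j) i
    simp only [Pi.sub_apply, Pi.add_apply, Pi.smul_apply, smul_eq_mul] at h
    have e1 : ((b 0 : Fin 3 → R) i * y0 j + (b 1 : Fin 3 → R) i * y1 j + v i * w j) =
        (Pi.single j 1 : Fin 3 → R) i := by
      linear_combination (-1 : R) * h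
    simp only [Matrix.of_apply, Matrix.cons_val_zero, Matrix.cons_val_one, Matrix.cons_val]
    rw [e1, Matrix.one_apply, Pi.single_apply]
  · ext j
    rw [Matrix.vecMul, dotProduct]
    have h0 := hb 0
    have h1 := hb 1
    rw [dot_apply] at h0 h1 hwv
    fin_cases j
    · simpa using h0
    · simpa using h1
    · simpa using hwv

end Basics

section

variable {k : Type} [Field k] [CharP k 2]

theorem no_gens (θ : k →+ k)
    (hθ : ∀ l z, θ (l ^ 2 * z) = l * θ z) (s t : k)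
    (hs : s ≠ 0) (ht : t ≠ 0) (h1 : θ 1 = 1) (hs1 : θ s = 0) (ht1 : θ t = 0)
    (hst1 : θ (s * t) = 0) (w v : Fin 3 → (Aring k)[X]) (hwv : dot w v = 1)
    (hw : ∀ i, (w i).map (Aring k).subtype = MT s t 2 i)
    (f0 f1 : Fin 3 → Aring k) (hf0 : dot (fun i => (w i).eval 1) f0 = 0)
    (hf1 : dot (fun i => (w i).eval 1) f1 = 0)
    (hgen : ∀ x, dot (fun i => (w i).eval 1) x = 0 → ∃ y0 y1 : Aring k, x = y0 • f0 + y1 • f1) :
    False := by
  have twoX : (2 : k[X]) = 0 := CharTwo.two_eq_zero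
  have hss' := C_mul' s hs
  have hd := ze_det t ht
  obtain ⟨e1, e2, e3, e4⟩ := al_eq s t ht
  have hv1 : dot (fun i => (w i).eval 1) (fun i => (v i).eval 1) = 1 := by
    rw [dot_apply] at hwv ⊢
    have h := congrArg (Polynomial.eval (1 : Aring k)) hwv
    rw [Polynomial.eval_finsetSum, Polynomial.eval_one] at h
    refine Eq.trans ?_ h
    refine Finset.sum_congr rfl fun i _ => ?_
    rw [Polynomial.eval_mul]
  exact not_free θ hθ s t hs ht h1 hs1 ht1 hst1 (MB s t) (MiB s t) (MB_mul_MiB s t hs)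
    ((piHom_MB s t 0 0).trans ((Mm_00 twoX _ _ _ _ _ _ hss' hd).trans e1.symm))
    ((piHom_MB s t 0 1).trans ((Mm_01 twoX _ _ _ _ _ _ hss' hd).trans e2.symm))
    ((piHom_MB s t 0 2).trans (Mm_02 twoX _ _ _ _ _ _ hss' hd))
    ((piHom_MB s t 1 0).trans ((Mm_10 twoX _ _ _ _ _ _ hss' hd).trans e3.symm))
    ((piHom_MB s t 1 1).trans ((Mm_11 twoX _ _ _ _ _ _ hss' hd).trans e4.symm))
    ((piHom_MB s t 1 2).trans (Mm_12 twoX _ _ _ _ _ _ hss' hd))
    (fun i => (w i).eval 1) (fun i => (v i).eval 1) f0 f1 (row_one s t w hw) hv1 hf0 hf1 hgen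

theorem eval_zero_MT_all (s t : k) (hs : s ≠ 0) (i j : Fin 3) :
    (MT s t i j).coeff 0 = (1 : Matrix (Fin 3) (Fin 3) (k[X][X])) i j := by
  have twoXX : (2 : k[X][X]) = 0 := CharTwo.two_eq_zero
  obtain ⟨z0, z1, z2, z3⟩ := zh_zero t
  have h := Mm_map (evalRingHom (0 : k[X][X])) (C (C (C s))) (C (C (C s⁻¹))) (zh k t 0)
    (zh k t 1) (zh k t 2) (zh k t 3) i j
  rw [coe_evalRingHom, z0, z1, z2, z3, eval_C, eval_C] at h
  have hd' : (1 * 1 + 0 * 0 - 1 : k[X][X]) = 0 := by ring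
  rw [coeff_zero_eq_eval_zero]
  refine h.trans ?_
  fin_cases i <;> fin_cases j
  · refine (Mm_00 twoXX _ _ _ _ _ _ (CC_mul s hs) hd').trans ?_; simp
  · refine (Mm_01 twoXX _ _ _ _ _ _ (CC_mul s hs) hd').trans ?_; simp
  · exact Mm_02 twoXX _ _ _ _ _ _ (CC_mul s hs) hd'
  · refine (Mm_10 twoXX _ _ _ _ _ _ (CC_mul s hs) hd').trans ?_; simp
  · refine (Mm_11 twoXX _ _ _ _ _ _ (CC_mul s hs) hd').trans ?_; simp
  · exact Mm_12 twoXX _ _ _ _ _ _ (CC_mul s hs) hd'
  · exact Mm_20 twoXX _ _ _ _ _ _ (CC_mul s hs) hd'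
  · exact Mm_21 twoXX _ _ _ _ _ _ (CC_mul s hs) hd'
  · exact Mm_22 twoXX _ _ _ _ _ _ (CC_mul s hs) hd'

end

/-- Abstract patching: a domain `B`, a subring `A`, elements `a + c = 1` of `A` with `c B ⊆ A`. -/
theorem patch_rows {B K : Type*} [CommRing B] [IsDomain B] [Field K] [Algebra B K]
    (hinj : Function.Injective (algebraMap B K)) (A : Subring B) (a c : B) (ha : a ∈ A)
    (hc : c ∈ A) (hac : a + c = 1) (hcB : ∀ b, c * b ∈ A)
    (w : Fin 3 → A[X]) (M Mi : Matrix (Fin 3) (Fin 3) B[X]) (hM : M * Mi = 1)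
    (hM0 : ∀ i j, (M i j).coeff 0 = (1 : Matrix (Fin 3) (Fin 3) B) i j)
    (hMw : ∀ i, (w i).map A.subtype = M 2 i)
    (N N' : Matrix (Fin 3) (Fin 3) K[X]) (hN : N * N' = 1)
    (mN : ∀ i j, N i j ∈ RS (A.map (algebraMap B K)) (pw (algebraMap B K a)))
    (mN' : ∀ i j, N' i j ∈ RS (A.map (algebraMap B K)) (pw (algebraMap B K a)))
    (hNw : Matrix.vecMul (fun i => (w i).map ((algebraMap B K).comp A.subtype)) N =
      (Pi.single 2 1 : Fin 3 → K[X])) :
    ∃ f0 f1 : Fin 3 → A, dot (fun i => (w i).eval 1) f0 = 0 ∧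
      dot (fun i => (w i).eval 1) f1 = 0 ∧
      ∀ x, dot (fun i => (w i).eval 1) x = 0 → ∃ y0 y1 : A, x = y0 • f0 + y1 • f1 := by
  classical
  set ι := algebraMap B K with hι
  set AK := A.map ι with hAK
  set W : Fin 3 → K[X] := fun i => (w i).map (ι.comp A.subtype) with hW
  have hmem : ∀ b ∈ A, ι b ∈ AK := fun b hb => ⟨b, hb, rfl⟩
  -- matrices over `K[T]` from `M`
  set G2 := Mi.map (mapRingHom ι) with hG2
  set G2' := M.map (mapRingHom ι) with hG2'
  have hone : ((1 : Matrix (Fin 3) (Fin 3) B[X]).map (mapRingHom ι)) = 1 :=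
    Matrix.map_one _ (map_zero _) (map_one _)
  have h2' : G2' * G2 = 1 := by rw [hG2, hG2', ← Matrix.map_mul, hM, hone]
  have h2 : G2 * G2' = 1 := mul_eq_one_comm.1 h2'
  have hW2 : ∀ i, W i = G2' 2 i := by
    intro i
    rw [hG2', Matrix.map_apply, ← hMw, hW, coe_mapRingHom, Polynomial.map_map]
  have inR : ∀ p : B[X], mapRingHom ι p ∈ RS AK (pw (ι c)) := by
    intro p
    refine ⟨ι c, ⟨1, pow_one _⟩, hmem _ hc, fun j => ?_⟩
    rw [coe_mapRingHom, coeff_map, ← map_mul]
    exact hmem _ (hcB _)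
  -- normalise `N` at zero
  set c0 : K[X] →+* K := constantCoeff with hc0
  set Z := N.map c0 with hZ
  set Z' := N'.map c0 with hZ'
  have hcone : ((1 : Matrix (Fin 3) (Fin 3) K[X]).map c0) = 1 :=
    Matrix.map_one _ (map_zero _) (map_one _)
  have hCone : ((1 : Matrix (Fin 3) (Fin 3) K).map (C : K →+* K[X])) = 1 :=
    Matrix.map_one _ (map_zero _) (map_one _)
  have hZZ' : Z * Z' = 1 := by rw [hZ, hZ', ← Matrix.map_mul, hN, hcone]
  have hZ'Z : Z' * Z = 1 := mul_eq_one_comm.1 hZZ'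
  have hCC : ∀ Y : Matrix (Fin 3) (Fin 3) K, (Y.map (C : K →+* K[X])).map c0 = Y := by
    intro Y
    ext i j
    simp [hc0]
  set H1 := N * Z'.map (C : K →+* K[X]) with hH1
  set H1' := Z.map (C : K →+* K[X]) * N' with hH1'
  have h1 : H1 * H1' = 1 := by
    rw [hH1, hH1', Matrix.mul_assoc, ← Matrix.mul_assoc (Z'.map _), ← Matrix.map_mul, hZ'Z,
      hCone, Matrix.one_mul, hN]
  have memC : ∀ p ∈ RS AK (pw (ι a)), C (c0 p) ∈ RS AK (pw (ι a)) := by
    rintro p ⟨s, hs, hsA, hp⟩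
    refine ⟨s, hs, hsA, fun j => ?_⟩
    rw [coeff_C]
    split_ifs
    · exact hp 0
    · rw [mul_zero]; exact AK.zero_mem
  have mH1 : ∀ i j, H1 i j ∈ RS AK (pw (ι a)) := by
    intro i j
    rw [hH1, Matrix.mul_apply]
    refine (RS AK (pw (ι a))).sum_mem fun x _ => (RS AK (pw (ι a))).mul_mem (mN _ _) ?_
    rw [Matrix.map_apply, hZ', Matrix.map_apply]
    exact memC _ (mN' _ _)
  have mH1' : ∀ i j, H1' i j ∈ RS AK (pw (ι a)) := by
    intro i j
    rw [hH1', Matrix.mul_apply]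
    refine (RS AK (pw (ι a))).sum_mem fun x _ => (RS AK (pw (ι a))).mul_mem ?_ (mN' _ _)
    rw [Matrix.map_apply, hZ, Matrix.map_apply]
    exact memC _ (mN _ _)
  have zH1 : H1.map c0 = 1 := by rw [hH1, Matrix.map_mul, hCC, ← hZ, hZZ']
  have zH1' : H1'.map c0 = 1 := by rw [hH1', Matrix.map_mul, hCC, ← hZ', hZZ']
  have zG2' : G2'.map c0 = 1 := by
    ext i j
    rw [Matrix.map_apply, hG2', Matrix.map_apply, hc0, constantCoeff_apply, coe_mapRingHom,
      coeff_map, hM0, Matrix.one_apply, Matrix.one_apply]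
    split_ifs
    · exact map_one _
    · exact map_zero _
  have zG2 : G2.map c0 = 1 := by
    have : G2.map c0 * G2'.map c0 = 1 := by rw [← Matrix.map_mul, h2, hcone]
    rwa [zG2', Matrix.mul_one] at this
  -- coprimality
  have hco : ∀ s ∈ pw (ι a), s ∈ AK → ∀ m : ℕ, ∃ x ∈ AK, ∃ y ∈ AK, s * x + (ι c) ^ m * y = 1 := by
    rintro s ⟨r, rfl⟩ - m
    have hcop : IsCoprime (⟨a, ha⟩ : A) (⟨c, hc⟩ : A) := by
      refine ⟨1, 1, ?_⟩
      apply Subtype.ext
      simpa using hac
    obtain ⟨x, y, hxy⟩ := hcop.pow (m := r) (n := m)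
    refine ⟨ι x, hmem _ x.2, ι y, hmem _ y.2, ?_⟩
    have h := congrArg (fun z : A => ι (z : B)) hxy
    simp only [Subring.coe_add, Subring.coe_mul, Subring.coe_pow, Subring.coe_one, map_add,
      map_mul, map_pow, map_one] at h
    simp only
    linear_combination h
  obtain ⟨l, hl⟩ := patch AK (pw (ι a)) (ι c) (hmem _ hc) hco H1 H1' G2 G2' h1 h2
    mH1 mH1' (fun i j => inR _) (fun i j => inR _) zH1 zH1' zG2 zG2'
  set P := G2' * H1 with hP
  set Q := H1' * G2 with hQ
  have hPQ : P * Q = 1 := by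
    rw [hP, hQ, Matrix.mul_assoc, ← Matrix.mul_assoc H1, h1, Matrix.one_mul, h2']
  have sc1 : (1 : Matrix (Fin 3) (Fin 3) K[X]).map (sc l) = 1 :=
    Matrix.map_one _ (map_zero _) (map_one _)
  have hPQl : P.map (sc l) * Q.map (sc l) = 1 := by rw [← Matrix.map_mul, hPQ, sc1]
  set G := G2 * P.map (sc l) with hG
  set G' := Q.map (sc l) * G2' with hG'
  have hGG' : G * G' = 1 := by
    rw [hG, hG', Matrix.mul_assoc, ← Matrix.mul_assoc (P.map _), hPQl, Matrix.one_mul, h2]
  -- the row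
  have hsing : ∀ Y : Matrix (Fin 3) (Fin 3) K[X],
      Matrix.vecMul (Pi.single 2 1 : Fin 3 → K[X]) Y = Y 2 := by
    intro Y
    ext1 j
    simp [Matrix.vecMul, dotProduct, Pi.single_apply]
  have hWG2' : Matrix.vecMul (Pi.single 2 1 : Fin 3 → K[X]) G2' = W := by
    rw [hsing]
    ext1 i
    exact (hW2 i).symm
  have hWG2 : Matrix.vecMul W G2 = (Pi.single 2 1 : Fin 3 → K[X]) := by
    rw [← hWG2', Matrix.vecMul_vecMul, h2', Matrix.vecMul_one]
  have hWc : ∀ i, c0 (W i) = (Pi.single 2 1 : Fin 3 → K) i := by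
    intro i
    have h := congrFun (congrFun zG2' 2) i
    rw [Matrix.map_apply] at h
    rw [hW2, h, Matrix.one_apply, Pi.single_apply]
    simp only [eq_comm]
  have hZ2 : Matrix.vecMul (Pi.single 2 1 : Fin 3 → K) Z = (Pi.single 2 1 : Fin 3 → K) := by
    ext1 j
    have h := congrArg c0 (congrFun hNw j)
    rw [Matrix.vecMul, dotProduct] at h
    rw [map_sum] at h
    simp only [map_mul] at h
    rw [Matrix.vecMul, dotProduct]
    have h3 : c0 ((Pi.single 2 1 : Fin 3 → K[X]) j) = (Pi.single 2 1 : Fin 3 → K) j := by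
      rw [Pi.single_apply, Pi.single_apply]
      split_ifs
      · exact map_one _
      · exact map_zero _
    rw [h3] at h
    rw [← h]
    refine Finset.sum_congr rfl fun i _ => ?_
    rw [← hWc]
    rfl
  have hZ'2 : Matrix.vecMul (Pi.single 2 1 : Fin 3 → K) Z' = (Pi.single 2 1 : Fin 3 → K) := by
    have h := congrArg (fun y => Matrix.vecMul y Z') hZ2
    simp only [Matrix.vecMul_vecMul, hZZ', Matrix.vecMul_one] at h
    exact h.symm
  have hCZ' : Matrix.vecMul (Pi.single 2 1 : Fin 3 → K[X]) (Z'.map (C : K →+* K[X])) =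
      (Pi.single 2 1 : Fin 3 → K[X]) := by
    ext1 j
    have h := congrArg (C : K →+* K[X]) (congrFun hZ'2 j)
    rw [hsing, Matrix.map_apply]
    have h4 : Matrix.vecMul (Pi.single 2 1 : Fin 3 → K) Z' j = Z' 2 j := by
      simp [Matrix.vecMul, dotProduct, Pi.single_apply]
    rw [h4] at h
    rw [h, Pi.single_apply, Pi.single_apply]
    split_ifs
    · exact map_one _
    · exact map_zero _
  have hWH1 : Matrix.vecMul W H1 = (Pi.single 2 1 : Fin 3 → K[X]) := by
    rw [hH1, ← Matrix.vecMul_vecMul, hNw, hCZ']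
  have hP2 : Matrix.vecMul (Pi.single 2 1 : Fin 3 → K[X]) P = (Pi.single 2 1 : Fin 3 → K[X]) := by
    rw [hP, ← Matrix.vecMul_vecMul, hWG2', hWH1]
  have hPl2 : Matrix.vecMul (Pi.single 2 1 : Fin 3 → K[X]) (P.map (sc l)) =
      (Pi.single 2 1 : Fin 3 → K[X]) := by
    rw [hsing] at hP2 ⊢
    ext1 j
    rw [Matrix.map_apply, hP2, Pi.single_apply]
    split_ifs
    · exact map_one _
    · exact map_zero _
  have hWG : Matrix.vecMul W G = (Pi.single 2 1 : Fin 3 → K[X]) := by
    rw [hG, ← Matrix.vecMul_vecMul, hWG2, hPl2]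
  have hG'2 : Matrix.vecMul (Pi.single 2 1 : Fin 3 → K[X]) G' = W := by
    rw [← hWG, Matrix.vecMul_vecMul, hGG', Matrix.vecMul_one]
  -- evaluate at one
  have hevA : ∀ p : K[X], (∀ e, p.coeff e ∈ AK) → ∃ b : A, ι (b : B) = p.eval 1 := by
    intro p hp
    have : p.eval 1 ∈ AK := by
      rw [eval_eq_sum_range]
      refine AK.sum_mem fun i _ => ?_
      rw [one_pow, mul_one]
      exact hp i
    obtain ⟨b, hb, hb'⟩ := this
    exact ⟨⟨b, hb⟩, hb'⟩
  have hgA : ∀ i j, ∃ b : A, ι (b : B) = (G i j).eval 1 :=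
    fun i j => hevA _ fun e => (hl i j e).1
  have hgA' : ∀ i j, ∃ b : A, ι (b : B) = (G' i j).eval 1 :=
    fun i j => hevA _ fun e => (hl i j e).2
  choose g hg using hgA
  choose g' hg' using hgA'
  have hw1 : ∀ i, ι (((w i).eval 1 : A) : B) = (W i).eval 1 := by
    intro i
    rw [hW]
    simp only
    rw [eval_map, ← map_one (ι.comp A.subtype), Polynomial.eval₂_at_apply]
    rfl
  have hcomb : ∀ j, dot (fun i => (w i).eval 1) (fun i => g i j) =
      (Pi.single 2 1 : Fin 3 → A) j := by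
    intro j
    apply Subtype.val_injective
    apply hinj
    rw [dot_apply]
    push_cast
    rw [map_sum]
    have h := congrArg (Polynomial.eval (1 : K)) (congrFun hWG j)
    rw [Matrix.vecMul, dotProduct, eval_finsetSum] at h
    have h5 : ∀ i, ι ((((w i).eval 1 : A) : B) * (g i j : B)) = eval 1 (W i * G i j) := by
      intro i
      rw [map_mul, eval_mul, hw1, hg]
    rw [Finset.sum_congr rfl fun i _ => h5 i]
    refine h.trans ?_
    rw [Pi.single_apply, Pi.single_apply]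
    split_ifs <;> simp
  refine ⟨fun i => g i 0, fun i => g i 1, ?_, ?_, ?_⟩
  · rw [hcomb]; simp
  · rw [hcomb]; simp
  · intro x hx
    refine ⟨∑ j, g' 0 j * x j, ∑ j, g' 1 j * x j, ?_⟩
    have hy2 : ∑ j, ι (g' 2 j : B) * ι (x j : B) = 0 := by
      rw [dot_apply] at hx
      have h := congrArg (fun z : A => ι (z : B)) hx
      push_cast at h
      rw [map_sum, map_zero] at h
      rw [← h]
      refine Finset.sum_congr rfl fun j _ => ?_
      rw [map_mul, hw1, hg']
      congr 2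
      rw [hsing] at hG'2
      rw [← hG'2]
    ext1 i
    apply Subtype.val_injective
    apply hinj
    have key : ∀ j, ∑ e, (G i e).eval 1 * (G' e j).eval 1 = (1 : Matrix (Fin 3) (Fin 3) K) i j := by
      intro j
      have h := congrArg (Polynomial.eval (1 : K)) (congrFun (congrFun hGG' i) j)
      rw [Matrix.mul_apply, eval_finsetSum] at h
      simp only [eval_mul] at h
      rw [h, Matrix.one_apply, Matrix.one_apply]
      split_ifs <;> simp
    have h6 : ι (x i : B) = ∑ e, (G i e).eval 1 * ∑ j, (G' e j).eval 1 * ι (x j : B) := by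
      have h7 : ∑ e, (G i e).eval 1 * ∑ j, (G' e j).eval 1 * ι (x j : B) =
          ∑ j, (∑ e, (G i e).eval 1 * (G' e j).eval 1) * ι (x j : B) := by
        simp only [Finset.mul_sum, Finset.sum_mul]
        rw [Finset.sum_comm]
        refine Finset.sum_congr rfl fun j _ => Finset.sum_congr rfl fun e _ => ?_
        ring
      rw [h7]
      simp only [key]
      simp [Matrix.one_apply]
    rw [Fin.sum_univ_three (f := fun e => (G i e).eval 1 * ∑ j, (G' e j).eval 1 * ι (x j : B))]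
      at h6
    have h8 : ∑ j, (G' 2 j).eval 1 * ι (x j : B) = 0 := by
      rw [← hy2]
      refine Finset.sum_congr rfl fun j _ => ?_
      rw [hg']
    rw [h8, mul_zero, add_zero] at h6
    change ι (x i : B) = ι ((((∑ j, g' 0 j * x j) • (fun i => g i 0) +
      (∑ j, g' 1 j * x j) • (fun i => g i 1) : Fin 3 → A) i : A) : B)
    rw [h6]
    simp only [Pi.add_apply, Pi.smul_apply, smul_eq_mul]
    push_cast
    rw [map_add, map_mul, map_mul, map_sum, map_sum, hg, hg]
    simp only [map_mul, hg']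
    ring

end Pool.Agent.TH208.Herm
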