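import Mathlib

set_option autoImplicit false

namespace Pool.Agent.TH208.Lam

open Polynomial

section Half

variable {S : Type*} [CommRing S]

/-- `half F g` has `i`-th coefficient `F (g_{2i+1})`. -/
noncomputable def half (F : S →+ S) (g : S[X]) : S[X] :=
  ∑ i ∈ Finset.range (g.natDegree + 1), monomial i (F (g.coeff (2 * i + 1)))

theorem coeff_half (F : S →+ S) (g : S[X]) (n : ℕ) :
    (half F g).coeff n = F (g.coeff (2 * n + 1)) := by
  unfold half
  rw [finsetSum_coeff]
  simp only [coeff_monomial]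
  rw [Finset.sum_ite_eq']
  split_ifs with h
  · rfl
  · rw [Finset.mem_range, not_lt] at h
    rw [coeff_eq_zero_of_natDegree_lt (by omega), map_zero]

theorem half_add (F : S →+ S) (g h : S[X]) : half F (g + h) = half F g + half F h := by
  ext n
  simp [coeff_half]

/-- `half F` as an additive map. -/
noncomputable def halfHom (F : S →+ S) : S[X] →+ S[X] where
  toFun := half F
  map_zero' := by ext n; simp [coeff_half]
  map_add' := half_add F

theorem half_sq_mul [CharP S 2] (F : S →+ S) (hF : ∀ l z, F (l ^ 2 * z) = l * F z)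
    (h g : S[X]) : half F (h ^ 2 * g) = h * half F g := by
  induction h using Polynomial.induction_on' with
  | add p q hp hq =>
    have h2 : (p + q) ^ 2 = p ^ 2 + q ^ 2 := by
      have h3 : (2 : S[X]) = 0 := CharTwo.two_eq_zero
      linear_combination (p * q) * h3
    rw [h2, add_mul, half_add, hp, hq, add_mul]
  | monomial m c =>
    ext i
    rw [coeff_half, monomial_pow, ← C_mul_X_pow_eq_monomial, ← C_mul_X_pow_eq_monomial,
      mul_assoc, mul_assoc, coeff_C_mul, coeff_C_mul, hF, coeff_X_pow_mul', coeff_X_pow_mul']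
    by_cases hmi : m ≤ i
    · rw [if_pos hmi, if_pos (by omega), coeff_half]
      congr 3
      omega
    · rw [if_neg hmi, if_neg (by omega), map_zero]

theorem natDegree_half_le (F : S →+ S) (g : S[X]) (h : half F g ≠ 0) :
    2 * (half F g).natDegree + 1 ≤ g.natDegree := by
  have h1 : (half F g).coeff (half F g).natDegree ≠ 0 := by
    rw [coeff_natDegree]
    exact leadingCoeff_ne_zero.mpr h
  rw [coeff_half] at h1
  apply le_natDegree_of_ne_zero
  intro h2
  rw [h2, map_zero] at h1
  exact h1 rfl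

end Half

section Core

variable {S : Type*} [CommRing S] [CharP S 2]

/-- the functional `g ↦` coefficient of `y^{n-1}` in `g mod P` -/
noncomputable def sfun (P g : S[X]) : S := (g %ₘ P).coeff (P.natDegree - 1)

omit [CharP S 2] in
theorem sfun_add (P g h : S[X]) : sfun P (g + h) = sfun P g + sfun P h := by
  unfold sfun
  rw [add_modByMonic, coeff_add]

omit [CharP S 2] in
theorem sfun_C_mul (P g : S[X]) (r : S) : sfun P (C r * g) = r * sfun P g := by
  unfold sfun
  rw [← smul_eq_C_mul, smul_modByMonic, coeff_smul, smul_eq_mul]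

omit [CharP S 2] in
theorem sfun_mul_self (P g : S[X]) (hP : P.Monic) : sfun P (P * g) = 0 := by
  unfold sfun
  rw [(modByMonic_eq_zero_iff_dvd hP).2 (dvd_mul_right P g), coeff_zero]

omit [CharP S 2] in
theorem sfun_sum (P : S[X]) {ι : Type*} (s : Finset ι) (f : ι → S[X]) :
    sfun P (∑ i ∈ s, f i) = ∑ i ∈ s, sfun P (f i) := by
  classical
  induction s using Finset.induction_on with
  | empty => simp [sfun]
  | insert a s ha ih => rw [Finset.sum_insert ha, Finset.sum_insert ha, sfun_add, ih]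

/-- (c') -/
theorem F_sfun (F : S →+ S) (hF : ∀ l z, F (l ^ 2 * z) = l * F z) (P : S[X]) (hP : P.Monic)
    (hn : 1 ≤ P.natDegree) (g : S[X]) : F (sfun P g) = sfun P (half F (g * P)) := by
  nontriviality S
  set q := g /ₘ P with hq
  set r := g %ₘ P with hr
  have hg : g = r + P * q := (modByMonic_add_div g P).symm
  have h1 : half F (g * P) = half F (r * P) + P * half F q := by
    rw [← half_sq_mul F hF, ← half_add]
    congr 1
    rw [hg]; ring
  rw [h1, sfun_add, sfun_mul_self P _ hP, add_zero]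
  have hrd : r.natDegree ≤ P.natDegree - 1 := by
    have h2 := natDegree_modByMonic_lt g hP (by
      intro h; rw [h, natDegree_one] at hn; omega)
    rw [← hr] at h2
    omega
  have hrP : (r * P).natDegree ≤ 2 * (P.natDegree - 1) + 1 := by
    refine (natDegree_mul_le).trans ?_
    omega
  have h3 : half F (r * P) %ₘ P = half F (r * P) := by
    rw [modByMonic_eq_self_iff hP]
    by_cases h4 : half F (r * P) = 0
    · rw [h4, degree_zero]
      exact bot_lt_iff_ne_bot.mpr (by
        intro h5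
        exact hP.ne_zero (degree_eq_bot.mp h5))
    · have h5 := natDegree_half_le F (r * P) h4
      apply degree_lt_degree
      omega
  unfold sfun
  rw [h3, coeff_half, ← hr]
  congr 1
  have h6 : 2 * (P.natDegree - 1) + 1 = (P.natDegree - 1) + P.natDegree := by omega
  rw [h6, coeff_mul_add_eq_of_natDegree_le hrd le_rfl, hP.coeff_natDegree, mul_one]

theorem F_sfun_sq (F : S →+ S) (hF : ∀ l z, F (l ^ 2 * z) = l * F z) (P : S[X]) (hP : P.Monic)
    (hn : 1 ≤ P.natDegree) (g v : S[X]) :
    F (sfun P (g * v ^ 2)) = sfun P (v * half F (g * P)) := by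
  rw [F_sfun F hF P hP hn]
  congr 1
  rw [← half_sq_mul F hF]
  congr 1
  ring

omit [CharP S 2] in
/-- (d) -/
theorem sfun_mul_Q (P : S[X]) (hP : P.Monic) (hn : 1 ≤ P.natDegree) (η : S) (g : S[X]) :
    ∃ h : S, sfun P (g * (P /ₘ (X - C η))) = g.eval η + P.eval η * h := by
  nontriviality S
  set Q := P /ₘ (X - C η) with hQ
  have hPQ : (X - C η) * Q = P - C (P.eval η) := by
    have h1 := modByMonic_add_div P (X - C η)
    rw [modByMonic_X_sub_C_eq_C_eval] at h1
    rw [hQ]
    linear_combination h1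
  have hQ1 : sfun P Q = 1 := by
    have hd : Q.natDegree = P.natDegree - 1 := by
      rw [hQ, natDegree_divByMonic P (monic_X_sub_C η), natDegree_X_sub_C]
    have hself : Q %ₘ P = Q := by
      rw [modByMonic_eq_self_iff hP]
      apply degree_lt_degree
      omega
    unfold sfun
    rw [hself, ← hd, coeff_natDegree, hQ, leadingCoeff_divByMonic_of_monic (monic_X_sub_C η)]
    · exact hP
    · rw [degree_X_sub_C]
      rw [degree_eq_natDegree hP.ne_zero]
      exact_mod_cast hn
  set g1 := g /ₘ (X - C η) with hg1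
  have hg : g = C (g.eval η) + (X - C η) * g1 := by
    have h1 := modByMonic_add_div g (X - C η)
    rw [modByMonic_X_sub_C_eq_C_eval] at h1
    exact h1.symm
  refine ⟨- sfun P g1, ?_⟩
  have h2 : g * Q = C (g.eval η) * Q + P * g1 + C (- P.eval η) * g1 := by
    rw [C_neg]
    calc g * Q = (C (g.eval η) + (X - C η) * g1) * Q := by rw [← hg]
      _ = C (g.eval η) * Q + ((X - C η) * Q) * g1 := by ring
      _ = _ := by rw [hPQ]; ring
  rw [h2, sfun_add, sfun_add, sfun_C_mul, sfun_C_mul, sfun_mul_self P _ hP, hQ1]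
  ring

omit [CharP S 2] in
theorem sfun_mem (P : S[X]) (I : Ideal S) (ρ g : S[X]) (h : ∀ i, ρ.coeff i ∈ I) :
    sfun P (ρ * g) ∈ I := by
  have h1 : ρ * g = ∑ i ∈ ρ.support, C (ρ.coeff i) * (X ^ i * g) := by
    conv_lhs => rw [ρ.as_sum_support_C_mul_X_pow, Finset.sum_mul]
    refine Finset.sum_congr rfl fun i _ => ?_
    ring
  rw [h1, sfun_sum]
  refine Ideal.sum_mem _ fun i _ => ?_
  rw [sfun_C_mul]
  exact I.mul_mem_right _ (h i)

/-- The core lemma. -/
theorem core (F : S →+ S) (hF : ∀ l z, F (l ^ 2 * z) = l * F z) (P b c d : S[X])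
    (hP : P.Monic) (hn : 1 ≤ P.natDegree) (hdet : P * d + b * c = 1) (η : S) :
    ∃ N : S, F (P.eval η * N) = N ∧
      (∃ h : S, N = c.eval η * (F (P.eval η * b.eval η)) ^ 2 + P.eval η * h) ∧
      (∀ I : Ideal S, (∀ i, F ((b * (X - C η) * P).coeff i) ∈ I) → N ∈ I) := by
  have two : (2 : S[X]) = 0 := CharTwo.two_eq_zero
  have twoS : (2 : S) = 0 := CharTwo.two_eq_zero
  set κ : S[X] := X - C η with hκ
  set Q := P /ₘ (X - C η) with hQ
  set a := P.eval η with ha
  have hκQ : κ * Q = P - C a := by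
    have h1 := modByMonic_add_div P (X - C η)
    rw [modByMonic_X_sub_C_eq_C_eval] at h1
    rw [hQ, hκ]
    linear_combination h1
  set ρ := half F (b * κ * P) with hρ
  refine ⟨sfun P (ρ ^ 2 * c * Q), ?_, ?_, ?_⟩
  · -- F (a N) = N
    have h1 : a * sfun P (ρ ^ 2 * c * Q) = sfun P (b * κ * (ρ * c * Q) ^ 2) := by
      rw [← sfun_C_mul]
      have h2 : C a * (ρ ^ 2 * c * Q) = b * κ * (ρ * c * Q) ^ 2 +
          P * (ρ ^ 2 * c * Q + ρ ^ 2 * κ * Q ^ 2 * c * d) := by
        have e1 : C a = P - κ * Q := by rw [hκQ]; ring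
        rw [e1]
        linear_combination (-(ρ ^ 2 * c * κ * Q ^ 2)) * two + (- (ρ ^ 2 * κ * Q ^ 2 * c)) * hdet
      rw [h2, sfun_add, sfun_mul_self P _ hP, add_zero]
    rw [h1, F_sfun_sq F hF P hP hn]
    congr 1
    rw [← hρ]; ring
  · obtain ⟨h1, e1⟩ := sfun_mul_Q P hP hn η (ρ ^ 2 * c)
    obtain ⟨h2, e2⟩ := sfun_mul_Q P hP hn η ρ
    obtain ⟨h3, e3⟩ := sfun_mul_Q P hP hn η b
    rw [← hQ, ← ha] at e1 e2 e3
    have e4 : sfun P (ρ * Q) = F (a * b.eval η) + a * F h3 := by
      have e5 : sfun P (ρ * Q) = F (sfun P (b * κ * Q ^ 2)) := by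
        rw [F_sfun_sq F hF P hP hn, ← hρ, mul_comm]
      have e6 : sfun P (b * κ * Q ^ 2) = a * b.eval η + a ^ 2 * h3 := by
        have e7 : b * κ * Q ^ 2 = P * (b * Q) + C (-a) * (b * Q) := by
          rw [C_neg]
          linear_combination (b * Q) * hκQ
        rw [e7, sfun_add, sfun_mul_self P _ hP, sfun_C_mul, e3]
        linear_combination (-(a * b.eval η) - a ^ 2 * h3) * twoS
      rw [e5, e6, map_add, hF]
    refine ⟨h1 + c.eval η * (a * (F h3 - h2) ^ 2), ?_⟩
    rw [e1, eval_mul, eval_pow]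
    have e8 : ρ.eval η = F (a * b.eval η) + a * (F h3 - h2) := by
      linear_combination e4 - e2
    rw [e8]
    linear_combination (c.eval η * (F (a * b.eval η)) * (a * (F h3 - h2))) * twoS
  · intro I hI
    have : ρ ^ 2 * c * Q = ρ * (ρ * c * Q) := by ring
    rw [this]
    refine sfun_mem P I ρ _ fun i => ?_
    rw [hρ, coeff_half]
    exact hI _

end Core

end Pool.Agent.TH208.Lam
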