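import Mathlib

set_option autoImplicit false

namespace Pool.Agent.TH208.Lam

open TensorProduct

/-- the linear functional `x ↦ ∑ w i * x i` -/
noncomputable def dot {R : Type*} [CommRing R] (w : Fin 3 → R) : (Fin 3 → R) →ₗ[R] R where
  toFun x := ∑ i, w i * x i
  map_add' x y := by
    simp only [Pi.add_apply, mul_add, Finset.sum_add_distrib]
  map_smul' r x := by
    simp only [Pi.smul_apply, smul_eq_mul, RingHom.id_apply, Finset.mul_sum]
    refine Finset.sum_congr rfl fun i _ => ?_
    ring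

theorem dot_apply {R : Type*} [CommRing R] (w x : Fin 3 → R) : dot w x = ∑ i, w i * x i := rfl

/-- a unimodular row gives a stably free kernel -/
theorem stablyFree_ker {R : Type*} [CommRing R] (w v : Fin 3 → R) (h : dot w v = 1) :
    Nonempty ((LinearMap.ker (dot w) × (Fin 1 → R)) ≃ₗ[R] (Fin 3 → R)) := by
  refine ⟨LinearEquiv.ofLinearMap
    { toFun := fun p => p.1.1 + p.2 0 • v
      map_add' := ?_
      map_smul' := ?_ }
    { toFun := fun x => (⟨x - dot w x • v, ?_⟩, fun _ => dot w x)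
      map_add' := ?_
      map_smul' := ?_ } ?_ ?_⟩
  · intro p q
    simp only [Prod.fst_add, Prod.snd_add, Submodule.coe_add, Pi.add_apply, add_smul]
    abel
  · intro r p
    simp only [Prod.smul_fst, Prod.smul_snd, Submodule.coe_smul, Pi.smul_apply, smul_eq_mul,
      RingHom.id_apply, smul_add, smul_smul]
  · rw [LinearMap.mem_ker, map_sub, map_smul, h, smul_eq_mul, mul_one, sub_self]
  · intro x y
    ext i
    · simp only [map_add, add_smul, Prod.fst_add, Submodule.coe_add, Pi.add_apply, Pi.sub_apply]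
      ring
    · simp
  · intro r x
    ext i
    · simp only [map_smul, RingHom.id_apply, Prod.smul_fst, Submodule.coe_smul, Pi.smul_apply,
        Pi.sub_apply, smul_eq_mul, Pi.smul_apply]
      ring
    · simp
  · ext x i
    simp
  · apply LinearMap.ext
    rintro ⟨⟨x, hx⟩, y⟩
    rw [LinearMap.mem_ker] at hx
    refine Prod.ext ?_ ?_
    · apply Subtype.ext
      simp [hx, h]
    · ext i
      have : i = 0 := Subsingleton.elim _ _
      subst this
      simp [hx, h]

section Ext

variable {A 𝔸 : Type*} [CommRing A] [CommRing 𝔸] [Algebra A 𝔸]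
variable {Q : Type*} [AddCommGroup Q] [Module A Q]

/-- evaluation `𝔸 ⊗ Q → Q` along an `A`-algebra map `𝔸 → A` -/
noncomputable def evQ (ε : 𝔸 →ₐ[A] A) : TensorProduct A 𝔸 Q →ₗ[A] Q :=
  TensorProduct.lift ((LinearMap.lsmul A Q).comp ε.toLinearMap)

theorem evQ_tmul (ε : 𝔸 →ₐ[A] A) (f : 𝔸) (q : Q) : evQ ε (f ⊗ₜ[A] q) = ε f • q := by
  simp [evQ]

theorem evQ_smul (ε : 𝔸 →ₐ[A] A) (g : 𝔸) (z : TensorProduct A 𝔸 Q) :
    evQ ε (g • z) = ε g • evQ ε z := by
  induction z using TensorProduct.induction_on with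
  | zero => simp
  | tmul f q => rw [TensorProduct.smul_tmul', evQ_tmul, evQ_tmul, smul_eq_mul, map_mul, mul_smul]
  | add x y hx hy => rw [smul_add, map_add, map_add, hx, hy, smul_add]

theorem ker_equiv_of_extended (w v : Fin 3 → 𝔸) (hwv : dot w v = 1)
    (e : LinearMap.ker (dot w) ≃ₗ[𝔸] TensorProduct A 𝔸 Q) (ε : 𝔸 →ₐ[A] A) :
    Nonempty (Q ≃ₗ[A] LinearMap.ker (dot (fun i => ε (w i)))) := by
  classical
  -- the projected basis vectors
  have hE : ∀ i, (Pi.single i 1 - w i • v : Fin 3 → 𝔸) ∈ LinearMap.ker (dot w) := by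
    intro i
    rw [LinearMap.mem_ker, map_sub, map_smul, hwv, dot_apply]
    simp [Pi.single_apply]
  let E : Fin 3 → LinearMap.ker (dot w) := fun i => ⟨_, hE i⟩
  have hEx : ∀ x : LinearMap.ker (dot w), x = ∑ i, (x : Fin 3 → 𝔸) i • E i := by
    intro x
    apply Subtype.ext
    have hx := x.2
    rw [LinearMap.mem_ker, dot_apply] at hx
    ext l
    simp only [Submodule.coe_sum, Submodule.coe_smul, E, Finset.sum_apply, Pi.smul_apply,
      Pi.sub_apply, smul_eq_mul, mul_sub, Finset.sum_sub_distrib]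
    have h1 : ∑ i, (x : Fin 3 → 𝔸) i * (Pi.single i 1 : Fin 3 → 𝔸) l = (x : Fin 3 → 𝔸) l := by
      simp [Pi.single_apply]
    have h2 : ∑ i, (x : Fin 3 → 𝔸) i * (w i * v l) = 0 := by
      have : ∑ i, (x : Fin 3 → 𝔸) i * (w i * v l) = (∑ i, w i * (x : Fin 3 → 𝔸) i) * v l := by
        rw [Finset.sum_mul]
        refine Finset.sum_congr rfl fun i _ => ?_
        ring
      rw [this, hx, zero_mul]
    rw [h1, h2, sub_zero]
  -- the map `θ`
  let θ0 : Q → (Fin 3 → A) := fun q i => ε ((e.symm (1 ⊗ₜ[A] q) : Fin 3 → 𝔸) i)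
  have htm : ∀ (f : 𝔸) (q : Q), e.symm (f ⊗ₜ[A] q) = f • e.symm (1 ⊗ₜ[A] q) := by
    intro f q
    rw [← map_smul, TensorProduct.smul_tmul', smul_eq_mul, mul_one]
  have hθsmul : ∀ (a : A) (q : Q), θ0 (a • q) = a • θ0 q := by
    intro a q
    ext i
    simp only [θ0, Pi.smul_apply, smul_eq_mul]
    have : (1 : 𝔸) ⊗ₜ[A] (a • q) = (algebraMap A 𝔸 a) • ((1 : 𝔸) ⊗ₜ[A] q) := by
      rw [TensorProduct.smul_tmul', smul_eq_mul, mul_one, ← TensorProduct.smul_tmul,
        Algebra.algebraMap_eq_smul_one]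
    rw [this, map_smul]
    simp
  have hθadd : ∀ (p q : Q), θ0 (p + q) = θ0 p + θ0 q := by
    intro p q
    ext i
    simp only [θ0, Pi.add_apply]
    rw [TensorProduct.tmul_add, map_add]
    simp
  have hθev : ∀ z : TensorProduct A 𝔸 Q, ∀ i, θ0 (evQ ε z) i = ε ((e.symm z : Fin 3 → 𝔸) i) := by
    intro z i
    induction z using TensorProduct.induction_on with
    | zero =>
      have : θ0 0 = 0 := by
        have := hθsmul 0 (0 : Q)
        rw [zero_smul, zero_smul] at this
        exact this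
      simp [this]
    | tmul f q =>
      rw [evQ_tmul, hθsmul, htm]
      simp [θ0]
    | add x y hx hy =>
      rw [map_add, hθadd, Pi.add_apply, hx, hy, map_add]
      simp
  have hθmem : ∀ q, θ0 q ∈ LinearMap.ker (dot (fun i => ε (w i))) := by
    intro q
    rw [LinearMap.mem_ker, dot_apply]
    have h1 := (e.symm ((1 : 𝔸) ⊗ₜ[A] q)).2
    rw [LinearMap.mem_ker, dot_apply] at h1
    have h2 := congrArg ε h1
    rw [map_sum, map_zero] at h2
    simpa [θ0, map_mul] using h2
  let j : (Fin 3 → A) →ₗ[A] Q := ∑ i, (LinearMap.proj i).smulRight (evQ ε (e (E i)))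
  have hj : ∀ x : Fin 3 → A, j x = ∑ i, x i • evQ ε (e (E i)) := by
    intro x
    simp [j]
  refine ⟨LinearEquiv.ofLinearMap
    { toFun := fun q => ⟨θ0 q, hθmem q⟩
      map_add' := fun p q => Subtype.ext (hθadd p q)
      map_smul' := fun a q => Subtype.ext (hθsmul a q) }
    (j.comp (Submodule.subtype _)) ?_ ?_⟩
  · apply LinearMap.ext
    intro x
    apply Subtype.ext
    ext l
    have hx := x.2
    rw [LinearMap.mem_ker, dot_apply] at hx
    simp only [LinearMap.comp_apply, Submodule.subtype_apply, LinearMap.coe_mk, AddHom.coe_mk,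
      LinearMap.id_apply]
    have h1 : θ0 (j (x : Fin 3 → A)) = ∑ i, (x : Fin 3 → A) i • θ0 (evQ ε (e (E i))) := by
      rw [hj]
      have hlin : ∀ (s : Finset (Fin 3)), θ0 (∑ i ∈ s, (x : Fin 3 → A) i • evQ ε (e (E i))) =
          ∑ i ∈ s, (x : Fin 3 → A) i • θ0 (evQ ε (e (E i))) := by
        intro s
        induction s using Finset.induction_on with
        | empty =>
          have := hθsmul 0 (0 : Q)
          rw [zero_smul, zero_smul] at this
          simpa using this
        | insert a s ha ih => rw [Finset.sum_insert ha, Finset.sum_insert ha, hθadd, hθsmul, ih]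
      exact hlin _
    rw [h1]
    simp only [Finset.sum_apply, Pi.smul_apply, smul_eq_mul, hθev, LinearEquiv.symm_apply_apply, E,
      Pi.sub_apply, map_sub, map_mul, Pi.smul_apply, smul_eq_mul, mul_sub, Finset.sum_sub_distrib]
    have h2 : ∑ i, (x : Fin 3 → A) i * ε ((Pi.single i 1 : Fin 3 → 𝔸) l) = (x : Fin 3 → A) l := by
      simp [Pi.single_apply, apply_ite ε]
    have h3 : ∑ i, (x : Fin 3 → A) i * (ε (w i) * ε (v l)) = 0 := by
      have : ∑ i, (x : Fin 3 → A) i * (ε (w i) * ε (v l)) =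
          (∑ i, ε (w i) * (x : Fin 3 → A) i) * ε (v l) := by
        rw [Finset.sum_mul]
        refine Finset.sum_congr rfl fun i _ => ?_
        ring
      rw [this, hx, zero_mul]
    rw [h2, h3, sub_zero]
  · apply LinearMap.ext
    intro q
    simp only [LinearMap.comp_apply, Submodule.subtype_apply, LinearMap.coe_mk, AddHom.coe_mk,
      LinearMap.id_apply]
    rw [hj]
    have h1 := hEx (e.symm ((1 : 𝔸) ⊗ₜ[A] q))
    have h2 := congrArg (fun z => evQ ε (e z)) h1
    simp only [LinearEquiv.apply_symm_apply, map_sum, map_smul, evQ_smul, evQ_tmul, map_one,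
      one_smul] at h2
    exact h2.symm

end Ext

end Pool.Agent.TH208.Lam
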