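import Mathlib

set_option autoImplicit false

namespace Pool.Agent.TH208.Lam

theorem wident {R : Type*} [CommRing R] (s t p1 q1 w : R) (h2 : (2 : R) = 0)
    (R1 : t * p1 - t - 1 = 0) (R2 : s * q1 - s - 1 = 0) :
    q1 * p1 * w * (1 + t * p1 * w) *
      (1 + (s * q1) ^ 2 * w * (1 + w) * ((t * p1) ^ 2 + (t * p1 * p1) ^ 2 * w)) =
    (1 + (s * q1) * (t * p1 * p1) * w * (1 + w)) *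
      ((1 + q1 + q1 * t) + q1 * p1 * t + q1 * p1 * (t * p1) * w +
        q1 * p1 * w * (1 + t * p1 * w) * (s * q1) * t * (1 + p1 * p1 * w)) +
      (q1 * p1 * (t * (1 + s * q1 * t + s * q1 * (t * p1 * p1)) + t * p1) * w + 1) := by
  linear_combination (exp := 1) (-8*w - 10*w^2 - 6*w^3 - 1*q1 - 10*q1*w - 8*q1*w^2 - 6*q1*w^3 - 4*p1*w - 6*p1*w^2 - 4*p1*w^3 - 5*p1*q1*w - 4*p1*q1*w^2 - 4*p1*q1*w^3 - 2*p1^2*w^2 - 2*p1^2*w^3 - 2*p1^2*q1*w^2 - 2*p1^2*q1*w^3 - 4*t*w - 4*t*w^2 - 2*t*w^3 - 4*t*q1*w - 4*t*q1*w^2 - 2*t*q1*w^3 - 3*t*p1*w - 4*t*p1*w^2 - 2*t*p1*w^3 - 3*t*p1*q1*w - 4*t*p1*q1*w^2 - 2*t*p1*q1*w^3 - 2*t*p1^2*w - 2*t*p1^2*w^2 - 2*t*p1^2*w^3 - 2*t*p1^2*q1*w - 2*t*p1^2*q1*w^2 - 2*t*p1^2*q1*w^3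 - 1*t*p1^3*w^2 - 2*t*p1^3*w^3 - 1*t*p1^3*q1*w^2 - 2*t*p1^3*q1*w^3 - 8*s*w - 10*s*w^2 - 6*s*w^3 - 4*s*p1*w - 6*s*p1*w^2 - 4*s*p1*w^3 - 2*s*p1^2*w^2 - 2*s*p1^2*w^3 - 4*s*t*w - 4*s*t*w^2 - 2*s*t*w^3 - 3*s*t*p1*w - 4*s*t*p1*w^2 - 2*s*t*p1*w^3 - 2*s*t*p1^2*w - 2*s*t*p1^2*w^2 - 2*s*t*p1^2*w^3 - 1*s*t*p1^3*w^2 - 2*s*t*p1^3*w^3) * R1 + (-1*t*p1*w - 1*t*p1*q1*w - 2*t*p1^2*w - 2*t*p1^2*w^2 - 1*t*p1^2*q1*w - 1*t*p1^2*q1*w^2 - 1*t*p1^3*w^2 - 1*t*p1^3*q1*w^2 - 1*t^2*p1*w - 1*t^2*p1*q1*w - 1*t^2*p1^2*w - 2*t^2*p1^2*w^2 - 1*t^2*p1^2*q1*w - 2*t^2*p1^2*q1*w^2 - 2*t^2*p1^3*w - 1*t^2*p1^3*w^2 - 2*t^2*p1^3*q1*w - 1*t^2*p1^3*q1*w^2 - 1*t^2*p1^4*w^2 - 2*t^2*p1^4*w^3 - 1*t^2*p1^4*q1*w^2 - 2*t^2*p1^4*q1*w^3)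 * R2 + (-1 - 4*w - 5*w^2 - 3*w^3 - 1*q1 - 5*q1*w - 4*q1*w^2 - 3*q1*w^3 - 2*p1*w - 3*p1*w^2 - 2*p1*w^3 - 2*p1*q1*w - 2*p1*q1*w^2 - 2*p1*q1*w^3 - 1*p1^2*w^2 - 1*p1^2*w^3 - 1*p1^2*q1*w^2 - 1*p1^2*q1*w^3 - 6*t*w - 7*t*w^2 - 4*t*w^3 - 1*t*q1 - 7*t*q1*w - 6*t*q1*w^2 - 4*t*q1*w^3 - 2*t^2*w - 2*t^2*w^2 - 1*t^2*w^3 - 2*t^2*q1*w - 2*t^2*q1*w^2 - 1*t^2*q1*w^3 - 4*s*w - 5*s*w^2 - 3*s*w^3 - 2*s*p1*w - 3*s*p1*w^2 - 2*s*p1*w^3 - 1*s*p1^2*w^2 - 1*s*p1^2*w^3 - 6*s*t*w - 7*s*t*w^2 - 4*s*t*w^3 - 2*s*t^2*w - 2*s*t^2*w^2 - 1*s*t^2*w^3) * h2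

end Pool.Agent.TH208.Lam
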