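import Mathlib

set_option autoImplicit false

namespace Pool.Agent.TH208.Lam

open Matrix

section Mat

variable {R : Type*} [CommRing R]

/-- upper unipotent block -/
def Um (l a c : R) : Matrix (Fin 3) (Fin 3) R := !![1, 0, l * a; 0, 1, l * c; 0, 0, 1]

/-- lower unipotent block -/
def Lm (l d b : R) : Matrix (Fin 3) (Fin 3) R := !![1, 0, 0; 0, 1, 0; l * d, l * b, 1]

/-- diagonal matrix -/
def Dm (s si : R) : Matrix (Fin 3) (Fin 3) R := !![s, 0, 0; 0, 1, 0; 0, 0, si]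

/-- the matrix lifting `alpha ⊕ 1` -/
def Mm (s si a b c d : R) : Matrix (Fin 3) (Fin 3) R :=
  Dm s si * (Um si a c * (Lm s d b * (Um (si + 1) a c * (Lm 1 d b * Um 1 a c))))

/-- its inverse -/
def Mi (s si a b c d : R) : Matrix (Fin 3) (Fin 3) R :=
  Um 1 a c * (Lm 1 d b * (Um (si + 1) a c * (Lm s d b * (Um si a c * Dm si s))))

theorem Um_sq (two : (2 : R) = 0) (l a c : R) : Um l a c * Um l a c = 1 := by
  ext i j
  fin_cases i <;> fin_cases j <;> simp [Um, Matrix.mul_apply, Fin.sum_univ_three]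
  · linear_combination (l * a) * two
  · linear_combination (l * c) * two

theorem Lm_sq (two : (2 : R) = 0) (l d b : R) : Lm l d b * Lm l d b = 1 := by
  ext i j
  fin_cases i <;> fin_cases j <;> simp [Lm, Matrix.mul_apply, Fin.sum_univ_three]
  · linear_combination (l * d) * two
  · linear_combination (l * b) * two

theorem Dm_mul (s si : R) (h : s * si = 1) : Dm s si * Dm si s = 1 := by
  ext i j
  fin_cases i <;> fin_cases j <;> simp [Dm, Matrix.mul_apply, Fin.sum_univ_three, h]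
  rw [mul_comm, h]

theorem Mm_mul_Mi (two : (2 : R) = 0) (s si a b c d : R) (h : s * si = 1) :
    Mm s si a b c d * Mi s si a b c d = 1 := by
  have hU : ∀ l (Z : Matrix (Fin 3) (Fin 3) R), Um l a c * (Um l a c * Z) = Z := fun l Z => by
    rw [← Matrix.mul_assoc, Um_sq two, Matrix.one_mul]
  have hL : ∀ l (Z : Matrix (Fin 3) (Fin 3) R), Lm l d b * (Lm l d b * Z) = Z := fun l Z => by
    rw [← Matrix.mul_assoc, Lm_sq two, Matrix.one_mul]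
  unfold Mm Mi
  simp only [Matrix.mul_assoc, hU, hL, Dm_mul s si h]

theorem Mm_map {R' : Type*} [CommRing R'] (f : R →+* R') (s si a b c d : R) (i j : Fin 3) :
    f (Mm s si a b c d i j) = Mm (f s) (f si) (f a) (f b) (f c) (f d) i j := by
  fin_cases i <;> fin_cases j <;>
    simp [Mm, Dm, Um, Lm, Matrix.mul_apply, Fin.sum_univ_three]

theorem Mi_map {R' : Type*} [CommRing R'] (f : R →+* R') (s si a b c d : R) (i j : Fin 3) :
    f (Mi s si a b c d i j) = Mi (f s) (f si) (f a) (f b) (f c) (f d) i j := by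
  fin_cases i <;> fin_cases j <;>
    simp [Mi, Dm, Um, Lm, Matrix.mul_apply, Fin.sum_univ_three]

variable (two : (2 : R) = 0) (s si a b c d : R) (h1 : s * si - 1 = 0)
  (h2 : a * d + b * c - 1 = 0)

include two h1 h2

theorem Mm_00 : Mm s si a b c d 0 0 = a * d + s * (b * c) := by
  simp [Mm, Dm, Um, Lm, Matrix.mul_apply, Fin.sum_univ_three]
  linear_combination (exp := 1) (2*a*d + a*b*c*d + a^2*d^2 + s*a*d + s*a*b*c*d + s*a^2*d^2 + s*si*a*b*c*d + s*si*a^2*d^2) * h1 + (2 + a*d + 3*s + s*a*d) * h2 +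
    (1 - 1*b*c + 2*s - 2*s*b*c) * two

theorem Mm_01 : Mm s si a b c d 0 1 = (1 + s) * (a * b) := by
  simp [Mm, Dm, Um, Lm, Matrix.mul_apply, Fin.sum_univ_three]
  linear_combination (exp := 1) (2*a*b + a*b^2*c + a^2*b*d + s*a*b + s*a*b^2*c + s*a^2*b*d + s*si*a*b^2*c + s*si*a^2*b*d) * h1 + (a*b + s*a*b) * h2 +
    (a*b + s*a*b) * two

theorem Mm_02 : Mm s si a b c d 0 2 = 0 := by
  simp [Mm, Dm, Um, Lm, Matrix.mul_apply, Fin.sum_univ_three]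
  linear_combination (exp := 1) (2*a + 3*a*b*c + a*b^2*c^2 + 3*a^2*d + 2*a^2*b*c*d + a^3*d^2 + 2*s*a*b*c + s*a*b^2*c^2 + 2*s*a^2*d + 2*s*a^2*b*c*d + s*a^3*d^2 + s*si*a*b*c + s*si*a*b^2*c^2 + s*si*a^2*d + 2*s*si*a^2*b*c*d + s*si*a^3*d^2) * h1 + (4*a + a*b*c + a^2*d + 4*s*a + s*a*b*c + s*a^2*d) * h2 +
    (3*a + 3*s*a) * two

theorem Mm_10 : Mm s si a b c d 1 0 = (1 + si) * (c * d) := by
  simp [Mm, Dm, Um, Lm, Matrix.mul_apply, Fin.sum_univ_three]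
  linear_combination (exp := 1) (c*d + b*c^2*d + a*c*d^2 + si*b*c^2*d + si*a*c*d^2) * h1 + (c*d + si*c*d) * h2 +
    (c*d + si*c*d) * two

theorem Mm_11 : Mm s si a b c d 1 1 = si * (c * b) + d * a := by
  simp [Mm, Dm, Um, Lm, Matrix.mul_apply, Fin.sum_univ_three]
  linear_combination (exp := 1) (b*c + b^2*c^2 + a*b*c*d + si*b^2*c^2 + si*a*b*c*d) * h1 + (-1 + b*c + si*b*c) * h2 +
    (2*b*c + si*b*c) * two

theorem Mm_12 : Mm s si a b c d 1 2 = 0 := by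
  simp [Mm, Dm, Um, Lm, Matrix.mul_apply, Fin.sum_univ_three]
  linear_combination (exp := 1) (2*b*c^2 + b^2*c^3 + 2*a*c*d + 2*a*b*c^2*d + a^2*c*d^2 + si*b*c^2 + si*b^2*c^3 + si*a*c*d + 2*si*a*b*c^2*d + si*a^2*c*d^2) * h1 + (4*c + b*c^2 + a*c*d + 4*si*c + si*b*c^2 + si*a*c*d) * h2 +
    (3*c + 3*si*c) * two

theorem Mm_20 : Mm s si a b c d 2 0 = 0 := by
  simp [Mm, Dm, Um, Lm, Matrix.mul_apply, Fin.sum_univ_three]
  linear_combination (exp := 1) (d + b*c*d + a*d^2 + si*b*c*d + si*a*d^2) * h1 + (d + si*d) * h2 +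
    (d + si*d) * two

theorem Mm_21 : Mm s si a b c d 2 1 = 0 := by
  simp [Mm, Dm, Um, Lm, Matrix.mul_apply, Fin.sum_univ_three]
  linear_combination (exp := 1) (b + b^2*c + a*b*d + si*b^2*c + si*a*b*d) * h1 + (b + si*b) * h2 +
    (b + si*b) * two

theorem Mm_22 : Mm s si a b c d 2 2 = 1 := by
  simp [Mm, Dm, Um, Lm, Matrix.mul_apply, Fin.sum_univ_three]
  linear_combination (exp := 1) (2*b*c + b^2*c^2 + 2*a*d + 2*a*b*c*d + a^2*d^2 + si*b*c + si*b^2*c^2 + si*a*d + 2*si*a*b*c*d + si*a^2*d^2) * h1 + (3 + b*c + a*d + 3*si + si*b*c + si*a*d) * h2 +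
    (1 + 2*si) * two

theorem Mi_02 : Mi s si a b c d 0 2 = 0 := by
  simp [Mi, Dm, Um, Lm, Matrix.mul_apply, Fin.sum_univ_three]
  linear_combination (exp := 1) (2*a + 3*a*b*c + a*b^2*c^2 + 3*a^2*d + 2*a^2*b*c*d + a^3*d^2 + 2*s*a*b*c + s*a*b^2*c^2 + 2*s*a^2*d + 2*s*a^2*b*c*d + s*a^3*d^2 + s*si*a*b*c + s*si*a*b^2*c^2 + s*si*a^2*d + 2*s*si*a^2*b*c*d + s*si*a^3*d^2) * h1 + (4*a + a*b*c + a^2*d + 4*s*a + s*a*b*c + s*a^2*d) * h2 +
    (3*a + 3*s*a) * two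

theorem Mi_12 : Mi s si a b c d 1 2 = 0 := by
  simp [Mi, Dm, Um, Lm, Matrix.mul_apply, Fin.sum_univ_three]
  linear_combination (exp := 1) (2*c + 3*b*c^2 + b^2*c^3 + 3*a*c*d + 2*a*b*c^2*d + a^2*c*d^2 + 2*s*b*c^2 + s*b^2*c^3 + 2*s*a*c*d + 2*s*a*b*c^2*d + s*a^2*c*d^2 + s*si*b*c^2 + s*si*b^2*c^3 + s*si*a*c*d + 2*s*si*a*b*c^2*d + s*si*a^2*c*d^2) * h1 + (4*c + b*c^2 + a*c*d + 4*s*c + s*b*c^2 + s*a*c*d) * h2 +
    (3*c + 3*s*c) * two

theorem Mi_22 : Mi s si a b c d 2 2 = 1 := by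
  simp [Mi, Dm, Um, Lm, Matrix.mul_apply, Fin.sum_univ_three]
  linear_combination (exp := 1) (2*b*c + b^2*c^2 + 2*a*d + 2*a*b*c*d + a^2*d^2 + s*b*c + s*b^2*c^2 + s*a*d + 2*s*a*b*c*d + s*a^2*d^2 + s*si*b^2*c^2 + 2*s*si*a*b*c*d + s*si*a^2*d^2) * h1 + (3 + b*c + a*d + 3*s + s*b*c + s*a*d) * h2 +
    (1 + 2*s) * two

end Mat

end Pool.Agent.TH208.Lam
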