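import Pool.Agent.TH208.LamCore

set_option autoImplicit false

namespace Pool.Agent.TH208.Lam

open Polynomial

section Frac

variable {R : Type*} [CommRing R] [IsDomain R] (K : Type*) [Field K] [Algebra R K]
  [IsFractionRing R K]

/-- extension of a semilinear operator to the fraction field -/
theorem exists_theta_frac (θ : R →+ R) (hθ : ∀ l z, θ (l ^ 2 * z) = l * θ z) :
    ∃ Θ : K →+ K, (∀ l z, Θ (l ^ 2 * z) = l * Θ z) ∧
      ∀ r, Θ (algebraMap R K r) = algebraMap R K (θ r) := by
  classical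
  have hinj : Function.Injective (algebraMap R K) := IsFractionRing.injective R K
  have hrep : ∀ z : K, ∃ u w : R, w ≠ 0 ∧ z = algebraMap R K u / algebraMap R K w := by
    intro z
    obtain ⟨u, w, hw, h⟩ := IsFractionRing.div_surjective (A := R) z
    exact ⟨u, w, nonZeroDivisors.ne_zero hw, h.symm⟩
  choose nu de hde hz using hrep
  let f : K → K := fun z => algebraMap R K (θ (nu z * de z)) / algebraMap R K (de z)
  have hf : ∀ (z : K) (u w : R), w ≠ 0 → z = algebraMap R K u / algebraMap R K w →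
      f z = algebraMap R K (θ (u * w)) / algebraMap R K w := by
    intro z u w hw h
    have h0 := hz z
    have hw' : algebraMap R K w ≠ 0 := by
      rw [Ne, map_eq_zero_iff _ hinj]; exact hw
    have hd' : algebraMap R K (de z) ≠ 0 := by
      rw [Ne, map_eq_zero_iff _ hinj]; exact hde z
    have h1 : nu z * w = u * de z := by
      apply hinj
      rw [map_mul, map_mul]
      have h5 : algebraMap R K (nu z) / algebraMap R K (de z) =
        algebraMap R K u / algebraMap R K w := by rw [← h0, ← h]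
      rw [div_eq_div_iff hd' hw'] at h5
      exact h5
    have h2 : θ (nu z * de z) * w = θ (u * w) * de z := by
      have e1 : w ^ 2 * (nu z * de z) = (de z) ^ 2 * (u * w) := by
        linear_combination (w * de z) * h1
      have e2 := congrArg θ e1
      rw [hθ, hθ] at e2
      linear_combination e2
    simp only [f]
    rw [div_eq_div_iff hd' hw', ← map_mul, ← map_mul, h2]
  refine ⟨⟨⟨f, ?_⟩, ?_⟩, ?_, ?_⟩
  · have := hf 0 0 1 one_ne_zero (by simp)
    rw [this]; simp
  · intro z z'
    have hd : algebraMap R K (de z) ≠ 0 := by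
      rw [Ne, map_eq_zero_iff _ hinj]; exact hde z
    have hd' : algebraMap R K (de z') ≠ 0 := by
      rw [Ne, map_eq_zero_iff _ hinj]; exact hde z'
    have h1 : z + z' = algebraMap R K (nu z * de z' + nu z' * de z) /
        algebraMap R K (de z * de z') := by
      conv_lhs => rw [hz z, hz z']
      rw [map_add, map_mul, map_mul, map_mul]
      field_simp
    have h2 := hf (z + z') _ _ (mul_ne_zero (hde z) (hde z')) h1
    change f (z + z') = f z + f z'
    rw [h2, hf z _ _ (hde z) (hz z), hf z' _ _ (hde z') (hz z')]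
    have h3 : (nu z * de z' + nu z' * de z) * (de z * de z') =
        (de z') ^ 2 * (nu z * de z) + (de z) ^ 2 * (nu z' * de z') := by ring
    rw [h3, map_add, hθ, hθ, RingHom.map_add, RingHom.map_mul, RingHom.map_mul, RingHom.map_mul]
    field_simp
  · intro l z
    have hd : algebraMap R K (de z) ≠ 0 := by
      rw [Ne, map_eq_zero_iff _ hinj]; exact hde z
    have hl : algebraMap R K (de l) ≠ 0 := by
      rw [Ne, map_eq_zero_iff _ hinj]; exact hde l
    have h1 : l ^ 2 * z = algebraMap R K (nu l ^ 2 * nu z) /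
        algebraMap R K (de l ^ 2 * de z) := by
      conv_lhs => rw [hz z, hz l]
      rw [map_mul, map_mul, map_pow, map_pow, div_pow, div_mul_div_comm]
    have h2 := hf (l ^ 2 * z) _ _ (mul_ne_zero (pow_ne_zero 2 (hde l)) (hde z)) h1
    change f (l ^ 2 * z) = l * f z
    rw [h2, hf z _ _ (hde z) (hz z)]
    have h3 : (nu l ^ 2 * nu z) * (de l ^ 2 * de z) = (nu l * de l) ^ 2 * (nu z * de z) := by
      ring
    rw [h3, hθ]
    conv_rhs => rw [hz l]
    rw [RingHom.map_mul, RingHom.map_mul, RingHom.map_mul, RingHom.map_pow]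
    field_simp
  · intro r
    change f _ = _
    rw [hf _ r 1 one_ne_zero (by simp)]
    simp

end Frac

/-- even half -/
noncomputable def evenHalf {S : Type*} [CommRing S] (F : S →+ S) : S[X] →+ S[X] :=
  (halfHom F).comp (AddMonoidHom.mulLeft X)

theorem evenHalf_apply {S : Type*} [CommRing S] (F : S →+ S) (g : S[X]) :
    evenHalf F g = half F (X * g) := rfl

theorem coeff_evenHalf {S : Type*} [CommRing S] (F : S →+ S) (g : S[X]) (n : ℕ) :
    (evenHalf F g).coeff n = F (g.coeff (2 * n)) := by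
  rw [evenHalf_apply, coeff_half, coeff_X_mul]

theorem evenHalf_sq_mul {S : Type*} [CommRing S] [CharP S 2] (F : S →+ S)
    (hF : ∀ l z, F (l ^ 2 * z) = l * F z) (h g : S[X]) :
    evenHalf F (h ^ 2 * g) = h * evenHalf F g := by
  rw [evenHalf_apply, evenHalf_apply, ← half_sq_mul F hF]
  congr 1
  ring

/-- the base field `𝔽₂(s,t)` -/
abbrev KK : Type := FractionRing ((ZMod 2)[X][X])

instance : CharP KK 2 := by
  exact charP_of_injective_algebraMap (IsFractionRing.injective ((ZMod 2)[X][X]) KK) 2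

theorem exists_theta : ∃ (θ : KK →+ KK) (s t : KK), (∀ l z, θ (l ^ 2 * z) = l * θ z) ∧
    s ≠ 0 ∧ t ≠ 0 ∧ θ 1 = 1 ∧ θ s = 0 ∧ θ t = 0 ∧ θ (s * t) = 0 := by
  have hid : ∀ l z : ZMod 2, (AddMonoidHom.id (ZMod 2)) (l ^ 2 * z) =
      l * (AddMonoidHom.id (ZMod 2)) z := by decide
  have h1 := evenHalf_sq_mul (AddMonoidHom.id (ZMod 2)) hid
  have h2 := evenHalf_sq_mul (evenHalf (AddMonoidHom.id (ZMod 2))) h1
  set θ1 : (ZMod 2)[X] →+ (ZMod 2)[X] := evenHalf (AddMonoidHom.id (ZMod 2)) with hθ1
  set θ2 : (ZMod 2)[X][X] →+ (ZMod 2)[X][X] := evenHalf θ1 with hθ2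
  have v1 : θ1 1 = 1 := by
    ext n
    rw [hθ1, coeff_evenHalf, coeff_one, coeff_one]
    by_cases hn : n = 0
    · subst hn; simp
    · rw [if_neg hn, if_neg (by omega), map_zero]
  have vX : θ1 X = 0 := by
    ext n
    rw [hθ1, coeff_evenHalf, coeff_X, if_neg (by omega), map_zero, coeff_zero]
  have w1 : θ2 1 = 1 := by
    ext1 n
    rw [hθ2, coeff_evenHalf, coeff_one, coeff_one]
    by_cases hn : n = 0
    · subst hn; simp [v1]
    · rw [if_neg hn, if_neg (by omega), map_zero]
  have wX : θ2 X = 0 := by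
    ext1 n
    rw [hθ2, coeff_evenHalf, coeff_X, if_neg (by omega), map_zero, coeff_zero]
  have wC : θ2 (C X) = 0 := by
    ext1 n
    rw [hθ2, coeff_evenHalf, coeff_C, coeff_zero]
    by_cases hn : n = 0
    · subst hn; simp [vX]
    · rw [if_neg (by omega), map_zero]
  have wCX : θ2 (C X * X) = 0 := by
    ext1 n
    rw [hθ2, coeff_evenHalf, coeff_C_mul, coeff_X, if_neg (by omega), mul_zero, map_zero,
      coeff_zero]
  obtain ⟨Θ, hΘ, hΘm⟩ := exists_theta_frac KK θ2 h2
  have hinj := IsFractionRing.injective ((ZMod 2)[X][X]) KK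
  refine ⟨Θ, algebraMap ((ZMod 2)[X][X]) KK (C X), algebraMap ((ZMod 2)[X][X]) KK X, hΘ,
    ?_, ?_, ?_, ?_, ?_, ?_⟩
  · rw [Ne, map_eq_zero_iff _ hinj, C_eq_zero]
    exact X_ne_zero
  · rw [Ne, map_eq_zero_iff _ hinj]
    exact X_ne_zero
  · have := hΘm 1
    rw [w1, (algebraMap ((ZMod 2)[X][X]) KK).map_one] at this
    exact this
  · rw [hΘm, wC, map_zero]
  · rw [hΘm, wX, map_zero]
  · rw [← map_mul, hΘm, wCX, map_zero]

end Pool.Agent.TH208.Lam
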