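import Pool.Agent.TH208.LamNoLift
import Pool.Agent.TH208.LamExt
import Pool.Agent.TH208.LamTheta
import Pool.Agent.TH208.LamMat

set_option autoImplicit false

namespace Pool.Agent.TH208.Lam

open Polynomial

section

variable {k : Type*} [Field k]

theorem piHom_X : piHom k X = X ^ 2 := by simp [piHom]

theorem piHom_CX : piHom k (C X) = X ^ 3 := by simp [piHom]

theorem piHom_CC (c : k) : piHom k (C (C c)) = C c := by simp [piHom]

/-- the subring `k + ker π` of `k[X,Y]` -/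
noncomputable def Aring (k : Type*) [Field k] : Subring (k[X][X]) :=
  (C : k →+* k[X]).range.comap (piHom k)

theorem mem_Aring (p : k[X][X]) : p ∈ Aring k ↔ ∃ c : k, C c = piHom k p := by
  rw [Aring, Subring.mem_comap, RingHom.mem_range]

/-- entries of the matrix `zeta` over `k[x]` -/
noncomputable def ze (k : Type*) [Field k] (t : k) : Fin 4 → k[X] :=
  ![1 + C (1 + t⁻¹) * X ^ 4, C (1 + t) * (X ^ 2 + X ^ 3),
    C (1 + t⁻¹) * ((X ^ 2 + X ^ 3) * (1 + X ^ 2)), 1 + C (1 + t) * X ^ 4]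

theorem ze_det [CharP k 2] (t : k) (ht : t ≠ 0) :
    ze k t 0 * ze k t 3 + ze k t 1 * ze k t 2 - 1 = 0 := by
  have two : (2 : k[X]) = 0 := CharTwo.two_eq_zero
  have R1 : (C (1 + t) : k[X]) * C (1 + t⁻¹) - C (1 + t) - C (1 + t⁻¹) = 0 := by
    rw [← C_mul, ← C_sub, ← C_sub]
    have : (1 + t) * (1 + t⁻¹) - (1 + t) - (1 + t⁻¹) = 0 := by field_simp; ring
    rw [this, C_0]
  simp only [ze, Matrix.cons_val_zero, Matrix.cons_val_one, Matrix.cons_val]
  linear_combination (X ^ 4 : k[X]) * R1 * (-1) + (C (1 + t) * C (1 + t⁻¹) *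
    (X ^ 4 + X ^ 5 + X ^ 6 + X ^ 7 + X ^ 8)) * two

theorem al_eq [CharP k 2] (s t : k) (ht : t ≠ 0) :
    al11 s t = ze k t 0 * ze k t 3 + C s * (ze k t 1 * ze k t 2) ∧
    al12 s t = (1 + C s) * (ze k t 0 * ze k t 1) ∧
    al21 s t = (1 + C s⁻¹) * (ze k t 2 * ze k t 3) ∧
    al22 s t = C s⁻¹ * (ze k t 2 * ze k t 1) + ze k t 3 * ze k t 0 := by
  have two : (2 : k[X]) = 0 := CharTwo.two_eq_zero
  have hd := ze_det t ht
  have hbc : ze k t 1 * ze k t 2 = C ((1 + t) * (1 + t⁻¹)) * (X ^ 4 * (1 + X) ^ 4) := by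
    simp only [ze, Matrix.cons_val_zero, Matrix.cons_val_one, Matrix.cons_val, C_mul]
    linear_combination (-(C (1 + t) * C (1 + t⁻¹) * X ^ 4 * (X + 2 * X ^ 2 + X ^ 3))) * two
  refine ⟨?_, ?_, ?_, ?_⟩
  · unfold al11
    rw [C_mul, mul_assoc, ← hbc, C_add, C_1]
    linear_combination (-1 : k[X]) * hd + (ze k t 1 * ze k t 2) * two
  · unfold al12
    simp only [ze, Matrix.cons_val_zero, Matrix.cons_val_one, Matrix.cons_val, C_mul,
      C_add (a := (1 : k)) (b := s), C_1]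
    ring
  · unfold al21
    simp only [ze, Matrix.cons_val_zero, Matrix.cons_val_one, Matrix.cons_val, C_mul,
      C_add (a := (1 : k)) (b := s⁻¹), C_1]
    linear_combination ((1 + C s⁻¹) * C (1 + t⁻¹) * X ^ 2 * (X + X ^ 2) * (1 + C (1 + t) * X ^ 4)) * two
  · unfold al22
    rw [C_mul, mul_assoc, ← hbc, C_add, C_1]
    linear_combination (-1 : k[X]) * hd + (ze k t 1 * ze k t 2) * two

/-- There is no free completion. -/
theorem not_free [CharP k 2] (θ : k →+ k) (hθ : ∀ l z, θ (l ^ 2 * z) = l * θ z) (s t : k)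
    (hs : s ≠ 0) (ht : t ≠ 0) (h1 : θ 1 = 1) (hs1 : θ s = 0) (ht1 : θ t = 0)
    (hst1 : θ (s * t) = 0) (M Mi : Matrix (Fin 3) (Fin 3) (k[X][X])) (hM : M * Mi = 1)
    (m00 : piHom k (M 0 0) = al11 s t) (m01 : piHom k (M 0 1) = al12 s t)
    (m02 : piHom k (M 0 2) = 0) (m10 : piHom k (M 1 0) = al21 s t)
    (m11 : piHom k (M 1 1) = al22 s t) (m12 : piHom k (M 1 2) = 0)
    (w v f0 f1 : Fin 3 → Aring k) (hw : ∀ i, (w i : k[X][X]) = M 2 i)
    (hwv : dot w v = 1) (hf0 : dot w f0 = 0) (hf1 : dot w f1 = 0)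
    (hgen : ∀ x, dot w x = 0 → ∃ y0 y1 : Aring k, x = y0 • f0 + y1 • f1) : False := by
  classical
  have two : (2 : k[X]) = 0 := CharTwo.two_eq_zero
  have twoB : (2 : k[X][X]) = 0 := CharTwo.two_eq_zero
  let N : Matrix (Fin 3) (Fin 3) (Aring k) := Matrix.of fun i j => ![f0 i, f1 i, v i] j
  have hx : ∀ i : Fin 3, ∃ y0 y1 : Aring k,
      (Pi.single i 1 - w i • v : Fin 3 → Aring k) = y0 • f0 + y1 • f1 := by
    intro i
    apply hgen
    rw [map_sub, map_smul, hwv, dot_apply]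
    simp [Pi.single_apply]
  choose y0 y1 hy using hx
  let N' : Matrix (Fin 3) (Fin 3) (Aring k) := Matrix.of fun i j => ![y0 j, y1 j, w j] i
  have hNN : N * N' = 1 := by
    ext i j
    rw [Matrix.mul_apply, Fin.sum_univ_three]
    have h := congrFun (hy j) i
    simp only [Pi.sub_apply, Pi.add_apply, Pi.smul_apply, smul_eq_mul] at h
    have e1 : (N i 0 * N' 0 j + N i 1 * N' 1 j + N i 2 * N' 2 j) =
        (Pi.single j 1 : Fin 3 → Aring k) i := by
      simp only [N, N', Matrix.of_apply, Matrix.cons_val_zero, Matrix.cons_val_one,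
        Matrix.cons_val]
      linear_combination (-1 : Aring k) * h
    rw [e1, Matrix.one_apply, Pi.single_apply]
  let NB : Matrix (Fin 3) (Fin 3) (k[X][X]) := N.map (Aring k).subtype
  have hNB : IsUnit NB.det := by
    have h : IsUnit N.det := Matrix.isUnit_det_of_right_inverse hNN
    have h' := h.map (Aring k).subtype
    rw [RingHom.map_det] at h'
    exact h'
  set G := M * NB with hG
  have hGdet : IsUnit G.det := by
    rw [hG, Matrix.det_mul]
    exact (Matrix.isUnit_det_of_right_inverse hM).mul hNB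
  have hGrow : ∀ j, G 2 j = ((dot w (fun l => N l j) : Aring k) : k[X][X]) := by
    intro j
    rw [hG, Matrix.mul_apply, dot_apply]
    push_cast
    refine Finset.sum_congr rfl fun l _ => ?_
    rw [hw]
    rfl
  have hG20 : G 2 0 = 0 := by
    rw [hGrow]
    have : (fun l => N l 0) = f0 := by ext l; simp [N]
    rw [this, hf0]; rfl
  have hG21 : G 2 1 = 0 := by
    rw [hGrow]
    have : (fun l => N l 1) = f1 := by ext l; simp [N]
    rw [this, hf1]; rfl
  have hG22 : G 2 2 = 1 := by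
    rw [hGrow]
    have : (fun l => N l 2) = v := by ext l; simp [N]
    rw [this, hwv]; rfl
  have hdet3 : G.det = G 0 0 * G 1 1 - G 0 1 * G 1 0 := by
    rw [Matrix.det_fin_three, hG20, hG21, hG22]; ring
  -- constants
  have hn : ∀ l j, ∃ c : k, C c = piHom k (NB l j) := by
    intro l j
    exact (mem_Aring _).1 (N l j).2
  choose n hn using hn
  have hGpi : ∀ j, piHom k (G 0 j) = al11 s t * C (n 0 j) + al12 s t * C (n 1 j) ∧
      piHom k (G 1 j) = al21 s t * C (n 0 j) + al22 s t * C (n 1 j) := by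
    intro j
    rw [hG, Matrix.mul_apply, Matrix.mul_apply, Fin.sum_univ_three, Fin.sum_univ_three]
    simp only [map_add, map_mul, m00, m01, m02, m10, m11, m12, ← hn]
    constructor <;> ring
  have haldet : al11 s t * al22 s t - al12 s t * al21 s t = 1 := by
    obtain ⟨e1, e2, e3, e4⟩ := al_eq s t ht
    have hd := ze_det t ht
    have hss : (C s * C s⁻¹ : k[X]) = 1 := by rw [← C_mul, mul_inv_cancel₀ hs, C_1]
    rw [e1, e2, e3, e4]
    generalize ze k t 0 = a at *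
    generalize ze k t 1 = b at *
    generalize ze k t 2 = c at *
    generalize ze k t 3 = d at *
    linear_combination (a * d + b * c + 1) * hd + (b ^ 2 * c ^ 2 - a * b * c * d) * hss -
      (2 * a * b * c * d) * two
  set D : k := n 0 0 * n 1 1 - n 0 1 * n 1 0 with hD
  have hpiG : piHom k (G.det) = C D := by
    rw [hdet3, map_sub, map_mul, map_mul, (hGpi 0).1, (hGpi 1).1, (hGpi 0).2, (hGpi 1).2, hD,
      C_sub, C_mul, C_mul]
    linear_combination (C (n 0 0) * C (n 1 1) - C (n 0 1) * C (n 1 0)) * haldet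
  obtain ⟨c1, hc1, hc1'⟩ := Polynomial.isUnit_iff.1 hGdet
  obtain ⟨c0, hc0, hc0'⟩ := Polynomial.isUnit_iff.1 hc1
  have hDc : c0 = D := by
    apply C_injective
    rw [← hpiG, ← hc1', ← hc0', piHom_CC]
  have hD0 : D ≠ 0 := by
    rw [← hDc]; exact hc0.ne_zero
  have hGdet' : G 0 0 * G 1 1 - G 0 1 * G 1 0 = C (C D) := by
    rw [← hdet3, ← hc1', ← hc0', hDc]
  have hDD : (C (C D⁻¹) * C (C D) : k[X][X]) = 1 := by
    rw [← C_mul, ← C_mul, inv_mul_cancel₀ hD0, C_1, C_1]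
  have hDD' : (C D⁻¹ * C D : k[X]) = 1 := by
    rw [← C_mul, inv_mul_cancel₀ hD0, C_1]
  have hDDk : D⁻¹ * D = 1 := inv_mul_cancel₀ hD0
  have hCD : (C D : k[X]) = C (n 0 0) * C (n 1 1) - C (n 0 1) * C (n 1 0) := by
    rw [hD, C_sub, C_mul, C_mul]
  have hCCD : (C (C D) : k[X][X]) = C (C (n 0 0)) * C (C (n 1 1)) -
      C (C (n 0 1)) * C (C (n 1 0)) := by
    rw [hCD, C_sub, C_mul, C_mul]
  refine no_lift θ hθ s t hs ht h1 hs1 ht1 hst1
    (C (C D⁻¹) * (G 0 0 * C (C (n 1 1)) - G 0 1 * C (C (n 1 0))))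
    (C (C D⁻¹) * (G 0 1 * C (C (n 0 0)) - G 0 0 * C (C (n 0 1))))
    (C (C D⁻¹) * (G 1 0 * C (C (n 1 1)) - G 1 1 * C (C (n 1 0))))
    (C (C D⁻¹) * (G 1 1 * C (C (n 0 0)) - G 1 0 * C (C (n 0 1)))) ?_ ?_ ?_ ?_
  · have e : (C (C D⁻¹)) ^ 2 * ((G 0 0 * G 1 1 - G 0 1 * G 1 0) *
        (C (C (n 0 0)) * C (C (n 1 1)) - C (C (n 0 1)) * C (C (n 1 0)))) = 1 := by
      rw [hGdet', ← hCCD]
      linear_combination (C (C D⁻¹) * C (C D) + 1) * hDD
    linear_combination e + ((C (C D⁻¹)) ^ 2 * (G 0 1 * C (C (n 0 0)) - G 0 0 * C (C (n 0 1))) *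
      (G 1 0 * C (C (n 1 1)) - G 1 1 * C (C (n 1 0)))) * twoB
  · rw [map_mul, map_sub, map_mul, map_mul, piHom_CC, piHom_CC, piHom_CC, (hGpi 0).1, (hGpi 1).1]
    linear_combination (al11 s t) * hDD' - (C D⁻¹ * al11 s t) * hCD
  · rw [map_mul, map_sub, map_mul, map_mul, piHom_CC, piHom_CC, piHom_CC, (hGpi 0).1, (hGpi 1).1]
    linear_combination (al12 s t) * hDD' - (C D⁻¹ * al12 s t) * hCD
  · rw [map_mul, map_sub, map_mul, map_mul, piHom_CC, piHom_CC, piHom_CC, (hGpi 0).2, (hGpi 1).2]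
    linear_combination (al21 s t) * hDD' - (C D⁻¹ * al21 s t) * hCD

end

end Pool.Agent.TH208.Lam
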