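import Pool.Agent.TH208.LamCore
import Pool.Agent.TH208.LamIdent

set_option autoImplicit false

namespace Pool.Agent.TH208.Lam

open Polynomial

section

variable {k : Type*} [Field k]

/-- The evaluation `k[Y][X] → k[x]`, `X ↦ x ^ 2`, `Y ↦ x ^ 3`. -/
noncomputable def piHom (k : Type*) [Field k] : k[X][X] →+* k[X] :=
  eval₂RingHom (eval₂RingHom C (X ^ 3)) (X ^ 2)

/-- The substitution `k[Y][X] → k[x][y]`, `Y ↦ y`, `X ↦ x ^ 2 + x ^ (3 N) + y ^ N`. -/
noncomputable def psi (k : Type*) [Field k] (N : ℕ) : k[X][X] →+* k[X][X] :=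
  eval₂RingHom (mapRingHom C) (X ^ N + C (X ^ 2 + X ^ (3 * N)))

theorem psi_X (N : ℕ) : psi k N X = X ^ N + C (X ^ 2 + X ^ (3 * N)) := by
  simp [psi]

theorem psi_C (N : ℕ) (a : k[X]) : psi k N (C a) = a.map C := by
  simp [psi]

theorem eval_psi [CharP k 2] (N : ℕ) (p : k[X][X]) : (psi k N p).eval (X ^ 3) = piHom k p := by
  have h2 : (2 : k[X]) = 0 := CharTwo.two_eq_zero
  have h : (evalRingHom (X ^ 3 : k[X])).comp (psi k N) = piHom k := by
    apply Polynomial.ringHom_ext
    · intro a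
      simp only [RingHom.comp_apply, psi_C, coe_evalRingHom, piHom, coe_eval₂RingHom, eval₂_C]
      rw [eval_map]
    · simp only [RingHom.comp_apply, psi_X, coe_evalRingHom, piHom, coe_eval₂RingHom, eval₂_X,
        eval_add, eval_pow, eval_X, eval_C]
      rw [← pow_mul]
      linear_combination (X ^ (3 * N)) * h2
  exact congrArg (fun f => f p) h

/-- polynomials in `y` over `k[x]` all of whose coefficients have no linear term -/
def Dsub (k : Type*) [Field k] : Subring (k[X][X]) where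
  carrier := {g | ∀ i, (g.coeff i).coeff 1 = 0}
  mul_mem' := by
    intro a b ha hb i
    rw [coeff_mul, finsetSum_coeff]
    refine Finset.sum_eq_zero fun x _ => ?_
    rw [mul_coeff_one, ha, hb]
    simp
  one_mem' := by
    intro i
    rw [coeff_one]
    split_ifs
    · rw [coeff_one, if_neg (by norm_num)]
    · simp
  add_mem' := by
    intro a b ha hb i
    rw [coeff_add, coeff_add, ha, hb, add_zero]
  zero_mem' := by intro i; simp
  neg_mem' := by
    intro a ha i
    rw [coeff_neg, coeff_neg, ha, neg_zero]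

theorem X_mem_Dsub : (X : k[X][X]) ∈ Dsub k := by
  intro i
  rw [coeff_X]
  split_ifs
  · rw [coeff_one, if_neg (by norm_num)]
  · simp

theorem C_mem_Dsub (a : k[X]) (ha : a.coeff 1 = 0) : (C a : k[X][X]) ∈ Dsub k := by
  intro i
  rw [coeff_C]
  split_ifs
  · exact ha
  · simp

theorem psi_mem (N : ℕ) (p : k[X][X]) : psi k N p ∈ Dsub k := by
  induction p using Polynomial.induction_on' with
  | add p q hp hq => rw [map_add]; exact (Dsub k).add_mem hp hq
  | monomial n a =>
    rw [← C_mul_X_pow_eq_monomial, map_mul, map_pow, psi_C, psi_X]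
    refine (Dsub k).mul_mem ?_ ((Dsub k).pow_mem ((Dsub k).add_mem ?_ ?_) _)
    · intro i
      rw [coeff_map, coeff_C, if_neg (by norm_num)]
    · exact (Dsub k).pow_mem X_mem_Dsub _
    · apply C_mem_Dsub
      rw [coeff_add, coeff_X_pow, coeff_X_pow, if_neg (by norm_num), if_neg (by omega), add_zero]

theorem psi_leadingCoeff (p : k[X][X]) (hp : p ≠ 0) :
    ∃ N : ℕ, ∃ l : k, l ≠ 0 ∧ (psi k N p).leadingCoeff = C l := by
  set m := p.natDegree with hm
  set N := (Finset.range (m + 1)).sup (fun i => (p.coeff i).natDegree) + 1 with hN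
  have hNi : ∀ i, i ≤ m → (p.coeff i).natDegree < N := by
    intro i hi
    have hi' : i ∈ Finset.range (m + 1) := Finset.mem_range.2 (by omega)
    have := Finset.le_sup (f := fun i => (p.coeff i).natDegree) hi'
    omega
  set W : k[X][X] := X ^ N + C (X ^ 2 + X ^ (3 * N)) with hW
  have hWm : W.Monic := monic_X_pow_add_C _ (by omega)
  have hWd : W.natDegree = N := natDegree_X_pow_add_C
  have hpsi : ∀ i (a : k[X]), psi k N (monomial i a) = a.map C * W ^ i := by
    intro i a
    rw [← C_mul_X_pow_eq_monomial, map_mul, map_pow, psi_C, psi_X]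
  have hdeg : ∀ i (a : k[X]), (a.map (C : k →+* k[X]) * W ^ i).natDegree ≤ a.natDegree + N * i := by
    intro i a
    refine natDegree_mul_le.trans ?_
    refine add_le_add (natDegree_map_le) ?_
    rw [hWm.natDegree_pow, hWd, mul_comm]
  -- split off the leading term
  have hsum : psi k N p = (∑ i ∈ Finset.range m, (p.coeff i).map C * W ^ i) +
      (p.coeff m).map C * W ^ m := by
    conv_lhs => rw [p.as_sum_range, map_sum, ← hm, Finset.sum_range_succ]
    simp only [hpsi]
  have hlc : p.coeff m ≠ 0 := by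
    rw [hm, coeff_natDegree]; exact leadingCoeff_ne_zero.2 hp
  have hinj : Function.Injective (C : k →+* k[X]) := C_injective
  have hTd : ((p.coeff m).map C * W ^ m).natDegree = (p.coeff m).natDegree + N * m := by
    rw [natDegree_mul ?_ (hWm.pow m).ne_zero, natDegree_map_eq_of_injective hinj,
      hWm.natDegree_pow, hWd, mul_comm]
    rw [Ne, Polynomial.map_eq_zero_iff hinj]
    exact hlc
  have hTne : (p.coeff m).map C * W ^ m ≠ 0 := by
    apply mul_ne_zero
    · rw [Ne, Polynomial.map_eq_zero_iff hinj]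
      exact hlc
    · exact (hWm.pow m).ne_zero
  refine ⟨N, (p.coeff m).leadingCoeff, leadingCoeff_ne_zero.2 hlc, ?_⟩
  rw [hsum, leadingCoeff_add_of_degree_lt, leadingCoeff_mul, (hWm.pow m).leadingCoeff, mul_one,
    leadingCoeff_map_of_injective hinj]
  by_cases hz : (∑ i ∈ Finset.range m, (p.coeff i).map C * W ^ i) = 0
  · rw [hz, degree_zero]
    exact bot_lt_iff_ne_bot.2 (fun h => hTne (degree_eq_bot.1 h))
  · have hmpos : 0 < m := by
      rcases Nat.eq_zero_or_pos m with h | h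
      · exfalso; apply hz; rw [h]; simp
      · exact h
    apply degree_lt_degree
    rw [hTd]
    have h1 : (∑ i ∈ Finset.range m, (p.coeff i).map C * W ^ i).natDegree < N * m := by
      apply lt_of_le_of_lt (natDegree_sum_le_of_forall_le (n := N * m - 1) _ _ ?_)
      · have : 0 < N * m := Nat.mul_pos (by omega) hmpos
        omega
      · intro i hi
        rw [Finset.mem_range] at hi
        refine (hdeg i _).trans ?_
        have h3 := hNi i hi.le
        have h4 : N * (i + 1) ≤ N * m := Nat.mul_le_mul_left _ hi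
        rw [mul_add, mul_one] at h4
        omega
    omega

end

section NoLift

variable {k : Type*} [Field k]

/-- the entries of the matrix `alpha` over `k[x ^ 2, x ^ 3]` -/
noncomputable def al11 (s t : k) : k[X] :=
  1 + C ((1 + s) * ((1 + t) * (1 + t⁻¹))) * (X ^ 4 * (1 + X) ^ 4)

noncomputable def al12 (s t : k) : k[X] :=
  C ((1 + s) * (1 + t)) * (X ^ 2 * (1 + X)) * (1 + C (1 + t⁻¹) * X ^ 4)

noncomputable def al21 (s t : k) : k[X] :=
  C ((1 + s⁻¹) * (1 + t⁻¹)) * (X ^ 2 * (1 + X) ^ 3) * (1 + C (1 + t) * X ^ 4)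

noncomputable def al22 (s t : k) : k[X] :=
  1 + C ((1 + s⁻¹) * ((1 + t) * (1 + t⁻¹))) * (X ^ 4 * (1 + X) ^ 4)

theorem half_X_mul (θ : k →+ k) (c : k) : half θ (C c * X) = C (θ c) := by
  ext n
  rw [coeff_half, coeff_C_mul, coeff_X, coeff_C]
  by_cases h : n = 0
  · subst h; simp
  · rw [if_neg (by omega), if_neg h, mul_zero, map_zero]

theorem half_C (θ : k →+ k) (c : k) : half θ (C c) = 0 := by
  ext n
  rw [coeff_half, coeff_C, if_neg (by omega), map_zero, coeff_zero]

theorem compute [CharP k 2] (θ : k →+ k) (hθ : ∀ l z, θ (l ^ 2 * z) = l * θ z) (s t : k)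
    (hs : s ≠ 0) (ht : t ≠ 0) (h1 : θ 1 = 1) (hs1 : θ s = 0) (ht1 : θ t = 0)
    (hst1 : θ (s * t) = 0) :
    (al11 s t).natDegree = 8 ∧ ∃ quo r : k[X], r.natDegree ≤ 7 ∧ r.coeff 0 = 1 ∧
      al21 s t * (halfHom θ (al11 s t * al12 s t)) ^ 2 = al11 s t * quo + r := by
  have two : (2 : k) = 0 := CharTwo.two_eq_zero
  have twoX : (2 : k[X]) = 0 := CharTwo.two_eq_zero
  have twoXX : (2 : k[X][X]) = 0 := CharTwo.two_eq_zero
  set F : k[X] →+ k[X] := halfHom θ with hF
  have hFl : ∀ l z, F (l ^ 2 * z) = l * F z := fun l z => half_sq_mul θ hθ l z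
  -- nonvanishing constants
  have hq : 1 + s ≠ 0 := by
    intro h
    have : s = 1 := by linear_combination h - two
    rw [this, h1] at hs1
    exact one_ne_zero hs1
  have hp : 1 + t ≠ 0 := by
    intro h
    have : t = 1 := by linear_combination h - two
    rw [this, h1] at ht1
    exact one_ne_zero ht1
  have hp' : 1 + t⁻¹ ≠ 0 := by
    intro h
    apply hp
    have := congrArg (fun z => z * t) h
    simp only [add_mul, one_mul, zero_mul, inv_mul_cancel₀ ht] at this
    rw [add_comm]; exact this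
  -- θ values
  have two' : ∀ z : k, z + z = 0 := fun z => by linear_combination z * two
  have tq : θ ((1 + s) * (1 + t)) = 1 := by
    have : (1 + s) * (1 + t) = 1 + s + t + s * t := by ring
    rw [this, map_add, map_add, map_add, h1, hs1, ht1, hst1]; ring
  have tP : θ ((1 + s) * (1 + t) * (1 + t⁻¹)) = 0 := by
    have : (1 + s) * (1 + t) * (1 + t⁻¹) = (1 + t⁻¹) ^ 2 * (t + s * t) := by
      field_simp; ring
    rw [this, hθ, map_add, ht1, hst1]; ring
  have tPp : θ ((1 + s) * ((1 + t) * (1 + t⁻¹)) * ((1 + s) * (1 + t))) = (1 + s) * (1 + t) := by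
    have : (1 + s) * ((1 + t) * (1 + t⁻¹)) * ((1 + s) * (1 + t)) =
        ((1 + s) * (1 + t⁻¹)) ^ 2 * (t + t ^ 2 * 1) := by
      field_simp; ring
    rw [this, hθ, map_add, ht1, hθ, h1]
    field_simp; ring
  have tPP : θ ((1 + s) * ((1 + t) * (1 + t⁻¹)) * ((1 + s) * (1 + t) * (1 + t⁻¹))) =
      (1 + s) * ((1 + t) * (1 + t⁻¹)) := by
    have : (1 + s) * ((1 + t) * (1 + t⁻¹)) * ((1 + s) * (1 + t) * (1 + t⁻¹)) =
        ((1 + s) * ((1 + t) * (1 + t⁻¹))) ^ 2 * 1 := by ring
    rw [this, hθ, h1, mul_one]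
  -- computation of `F (al11 * al12)`
  have FC : ∀ c : k, F (C c) = 0 := fun c => half_C θ c
  have FCX : ∀ c : k, F (C c * X) = C (θ c) := fun c => half_X_mul θ c
  have Fe : ∀ e : k, F (C e * al12 s t) = X * (C (θ (e * ((1 + s) * (1 + t)))) +
      X ^ 2 * C (θ (e * ((1 + s) * (1 + t) * (1 + t⁻¹))))) := by
    intro e
    have h : C e * al12 s t = X ^ 2 * ((C (e * ((1 + s) * (1 + t))) +
        C (e * ((1 + s) * (1 + t))) * X) + (X ^ 2) ^ 2 *
        (C (e * ((1 + s) * (1 + t) * (1 + t⁻¹))) +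
          C (e * ((1 + s) * (1 + t) * (1 + t⁻¹))) * X)) := by
      unfold al12
      simp only [C_mul, C_add, C_1]
      ring
    rw [h, hFl, map_add, map_add, FC, FCX, hFl, map_add, FC, FCX]
    ring
  have Fab : F (al11 s t * al12 s t) = X + X ^ 2 * (1 + X) ^ 2 * (X * (C ((1 + s) * (1 + t)) +
      X ^ 2 * C ((1 + s) * ((1 + t) * (1 + t⁻¹))))) := by
    have h : al11 s t * al12 s t = C 1 * al12 s t + (X ^ 2 * (1 + X) ^ 2) ^ 2 *
        (C ((1 + s) * ((1 + t) * (1 + t⁻¹))) * al12 s t) := by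
      rw [C_1]
      conv_lhs => unfold al11
      ring
    rw [h, map_add, hFl, Fe, Fe, one_mul, one_mul, tq, tP, tPp, tPP, C_1, C_0]
    ring
  set r : k[X] := (1 + X) ^ 3 * (C ((1 + s⁻¹) * (1 + t⁻¹) *
    (t * (1 + (1 + s) * t + (1 + s) * ((1 + t) * (1 + t⁻¹))) + (1 + t))) * X ^ 4 + 1) with hr
  obtain ⟨quo, hquo⟩ : ∃ quo : k[X], al21 s t * (F (al11 s t * al12 s t)) ^ 2 =
      al11 s t * quo + r := by
    have R1 : (C t : k[X]) * C (1 + t⁻¹) - C t - 1 = 0 := by
      rw [← C_mul, ← C_1, ← C_sub, ← C_sub]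
      have : t * (1 + t⁻¹) - t - 1 = 0 := by field_simp; ring
      rw [this, C_0]
    have R2 : (C s : k[X]) * C (1 + s⁻¹) - C s - 1 = 0 := by
      rw [← C_mul, ← C_1, ← C_sub, ← C_sub]
      have : s * (1 + s⁻¹) - s - 1 = 0 := by field_simp; ring
      rw [this, C_0]
    have key := wident (C s) (C t) (C (1 + t⁻¹)) (C (1 + s⁻¹)) (X ^ 4 : k[X]) twoX R1 R2
    have ep : (C (1 + t) : k[X]) = C t * C (1 + t⁻¹) := by
      rw [C_add, C_1]; linear_combination -R1
    have eq' : (C (1 + s) : k[X]) = C s * C (1 + s⁻¹) := by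
      rw [C_add, C_1]; linear_combination -R2
    have e4 : (1 + X : k[X]) ^ 4 = 1 + X ^ 4 := by
      linear_combination (2 * X + 3 * X ^ 2 + 2 * X ^ 3) * twoX
    refine ⟨(1 + X) ^ 3 * ((1 + C (1 + s⁻¹) + C (1 + s⁻¹) * C t) +
      C (1 + s⁻¹) * C (1 + t⁻¹) * C t +
      C (1 + s⁻¹) * C (1 + t⁻¹) * (C t * C (1 + t⁻¹)) * X ^ 4 +
      C (1 + s⁻¹) * C (1 + t⁻¹) * X ^ 4 * (1 + C t * C (1 + t⁻¹) * X ^ 4) *
        (C s * C (1 + s⁻¹)) * C t * (1 + C (1 + t⁻¹) * C (1 + t⁻¹) * X ^ 4)), ?_⟩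
    rw [Fab, hr]
    unfold al21 al11
    rw [e4]
    simp only [C_mul, ep, eq']
    have e5 : (C (t * (1 + (1 + s) * t + (1 + s) * ((1 + t) * (1 + t⁻¹))) + (1 + t)) : k[X]) =
        C t * (1 + C s * C (1 + s⁻¹) * C t + C s * C (1 + s⁻¹) *
          (C t * C (1 + t⁻¹) * C (1 + t⁻¹))) + C t * C (1 + t⁻¹) := by
      rw [C_add, ep]
      congr 1
      simp only [C_mul, C_add (a := 1 + (1 + s) * t), C_add (a := (1 : k)) (b := (1 + s) * t), C_1,
        ep, eq']
    rw [e5]
    set S := (C s : k[X])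
    set T := (C t : k[X])
    set p1 := (C (1 + t⁻¹) : k[X])
    set q1 := (C (1 + s⁻¹) : k[X])
    have e6 : (X + X ^ 2 * (1 + X) ^ 2 * (X * (S * q1 * (T * p1) + X ^ 2 * (S * q1 *
        (T * p1 * p1))))) ^ 2 = X ^ 2 * (1 + (S * q1) ^ 2 * X ^ 4 * (1 + X ^ 4) *
        ((T * p1) ^ 2 + (T * p1 * p1) ^ 2 * X ^ 4)) := by
      rw [← e4]
      linear_combination (X ^ 4 * (1 + X) ^ 2 * (S * q1 * (T * p1) + X ^ 2 * (S * q1 *
        (T * p1 * p1))) + X ^ 8 * (1 + X) ^ 4 * (S * q1) ^ 2 * (T * p1) * (T * p1 * p1)) * twoX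
    rw [e6]
    linear_combination ((1 + X) ^ 3) * key
  -- degrees
  set e : k := (1 + s) * ((1 + t) * (1 + t⁻¹)) with he
  have he0 : e ≠ 0 := mul_ne_zero hq (mul_ne_zero hp hp')
  have hald : (al11 s t).natDegree = 8 := by
    have h : al11 s t = C e * X ^ 8 + C e * X ^ 4 + 1 := by
      have e4 : (1 + X : k[X]) ^ 4 = 1 + X ^ 4 := by
        linear_combination (2 * X + 3 * X ^ 2 + 2 * X ^ 3) * twoX
      unfold al11
      rw [e4]; ring
    rw [h]
    compute_degree!
  have hrd : r.natDegree ≤ 7 := by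
    rw [hr]
    compute_degree
  have hr0 : r.coeff 0 = 1 := by
    rw [hr, coeff_zero_eq_eval_zero]
    simp
  exact ⟨hald, quo, r, hrd, hr0, hquo⟩

theorem no_lift [CharP k 2] (θ : k →+ k) (hθ : ∀ l z, θ (l ^ 2 * z) = l * θ z) (s t : k)
    (hs : s ≠ 0) (ht : t ≠ 0) (h1 : θ 1 = 1) (hs1 : θ s = 0) (ht1 : θ t = 0)
    (hst1 : θ (s * t) = 0) (a b c d : k[X][X]) (hdet : a * d + b * c = 1)
    (ha : piHom k a = al11 s t) (hb : piHom k b = al12 s t) (hc : piHom k c = al21 s t) :
    False := by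
  obtain ⟨hald, quo, r, hrd, hr0, hquo⟩ := compute θ hθ s t hs ht h1 hs1 ht1 hst1
  set F : k[X] →+ k[X] := halfHom θ with hF
  have hFl : ∀ l z, F (l ^ 2 * z) = l * F z := fun l z => half_sq_mul θ hθ l z
  -- the matrix over `k[x][y]`
  have ha0 : a ≠ 0 := by
    intro h
    rw [h, map_zero] at ha
    rw [← ha, natDegree_zero] at hald
    omega
  obtain ⟨N₀, l, hl, hlc⟩ := psi_leadingCoeff a ha0
  set P : k[X][X] := C (C l⁻¹) * psi k N₀ a with hP
  set b' : k[X][X] := C (C l⁻¹) * psi k N₀ b with hb'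
  set c' : k[X][X] := C (C l) * psi k N₀ c with hc'
  set d' : k[X][X] := C (C l) * psi k N₀ d with hd'
  have hll : (C (C l⁻¹) * C (C l) : k[X][X]) = 1 := by
    rw [← C_mul, ← C_mul, inv_mul_cancel₀ hl, C_1, C_1]
  have hll' : (C l⁻¹ * C l : k[X]) = 1 := by
    rw [← C_mul, inv_mul_cancel₀ hl, C_1]
  have hPm : P.Monic := by
    rw [Monic, hP, leadingCoeff_mul, leadingCoeff_C, hlc]
    exact hll'
  have hdet' : P * d' + b' * c' = 1 := by
    have h := congrArg (psi k N₀) hdet
    rw [map_add, map_mul, map_mul, map_one] at h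
    rw [hP, hd', hb', hc']
    linear_combination (psi k N₀ a * psi k N₀ d + psi k N₀ b * psi k N₀ c) * hll + h
  have eP : P.eval (X ^ 3) = C l⁻¹ * al11 s t := by
    rw [hP, eval_mul, eval_C, eval_psi, ha]
  have eb : b'.eval (X ^ 3) = C l⁻¹ * al12 s t := by
    rw [hb', eval_mul, eval_C, eval_psi, hb]
  have ec : c'.eval (X ^ 3) = C l * al21 s t := by
    rw [hc', eval_mul, eval_C, eval_psi, hc]
  have hn : 1 ≤ P.natDegree := by
    by_contra hcon
    have h0 : P.natDegree = 0 := by omega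
    rw [hPm.natDegree_eq_zero] at h0
    rw [h0, eval_one] at eP
    have h1 : al11 s t = C l := by
      calc al11 s t = (C l⁻¹ * C l) * al11 s t := by rw [hll', one_mul]
        _ = C l * (C l⁻¹ * al11 s t) := by ring
        _ = C l := by rw [← eP, mul_one]
    rw [h1, natDegree_C] at hald
    omega
  obtain ⟨N, hN1, ⟨h, hN2⟩, hN3⟩ := core F hFl P b' c' d' hPm hn hdet' (X ^ 3)
  have hN0 : N.coeff 0 = 0 := by
    have h1 : N ∈ RingHom.ker (constantCoeff : k[X] →+* k) := by
      apply hN3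
      intro i
      rw [RingHom.mem_ker, constantCoeff_apply, hF]
      change (half θ _).coeff 0 = 0
      rw [coeff_half]
      have h2 : b' * (X - C (X ^ 3)) * P ∈ Dsub k := by
        refine (Dsub k).mul_mem ((Dsub k).mul_mem ((Dsub k).mul_mem ?_ (psi_mem _ _))
          ((Dsub k).sub_mem X_mem_Dsub ?_)) ((Dsub k).mul_mem ?_ (psi_mem _ _))
        · apply C_mem_Dsub
          rw [coeff_C, if_neg (by norm_num)]
        · apply C_mem_Dsub
          rw [coeff_X_pow, if_neg (by norm_num)]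
        · apply C_mem_Dsub
          rw [coeff_C, if_neg (by norm_num)]
      have h3 := h2 i
      rw [mul_zero, zero_add, h3, map_zero]
    rw [RingHom.mem_ker, constantCoeff_apply] at h1
    exact h1
  rw [eP, eb, ec] at hN2
  rw [eP] at hN1
  have hF2 : F (C l⁻¹ * al11 s t * (C l⁻¹ * al12 s t)) = C l⁻¹ * F (al11 s t * al12 s t) := by
    have e9 : C l⁻¹ * al11 s t * (C l⁻¹ * al12 s t) =
        (C l⁻¹) ^ 2 * (al11 s t * al12 s t) := by ring
    rw [e9, hFl]
  rw [hF2] at hN2
  have hN' : C l * N = al11 s t * (quo + h) + r := by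
    have h1 : C l * N = al21 s t * (F (al11 s t * al12 s t)) ^ 2 + al11 s t * h := by
      rw [hN2]
      linear_combination (al11 s t * h + al21 s t * (F (al11 s t * al12 s t)) ^ 2 *
        (C l⁻¹ * C l + 1)) * hll'
    rw [h1, hquo]; ring
  have hNd : N.natDegree ≤ 7 := by
    by_cases hN00 : N = 0
    · rw [hN00, natDegree_zero]; omega
    · have h1 : half θ (C l⁻¹ * al11 s t * N) = N := hN1
      have h2 := natDegree_half_le θ (C l⁻¹ * al11 s t * N) (by rw [h1]; exact hN00)
      rw [h1] at h2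
      have h3 : (C l⁻¹ * al11 s t * N).natDegree ≤ 8 + N.natDegree := by
        refine natDegree_mul_le.trans ?_
        have := (natDegree_C_mul_le l⁻¹ (al11 s t))
        omega
      omega
  have hzero : quo + h = 0 := by
    by_contra hne
    have h1 : al11 s t * (quo + h) = C l * N - r := by rw [hN']; ring
    have h2 : (al11 s t * (quo + h)).natDegree = 8 + (quo + h).natDegree := by
      rw [natDegree_mul ?_ hne, hald]
      intro h0
      rw [h0, natDegree_zero] at hald
      omega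
    have h3 : (C l * N - r).natDegree ≤ 7 := by
      refine (natDegree_sub_le _ _).trans ?_
      have := (natDegree_C_mul_le l N)
      omega
    rw [h1] at h2
    omega
  rw [hzero, mul_zero, zero_add] at hN'
  have h9 := congrArg (fun z => coeff z 0) hN'
  simp only [coeff_C_mul, hN0, mul_zero, hr0] at h9
  exact zero_ne_one h9

end NoLift

end Pool.Agent.TH208.Lam
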